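import Pool.Agent.Schatten.Nrm

/-!
Block-diagonal sums and the growth of their Schatten quasi-norms.
-/

open scoped ENNReal InnerProductSpace Topology
open Module.End MeasureTheory Filter

namespace Pool.Agent.Schatten

universe u v

variable {H : Type u} [NormedAddCommGroup H] [InnerProductSpace ℂ H] [CompleteSpace H]

/-- `B` is a sum of `k` blocks, supported on pairwise disjoint coordinate sets with union `A`,
each of quasi-norm in `[c, 1]`. -/
inductive BlockSum (e : HilbertBasis ℕ ℂ H) (p c : ℝ≥0∞) : ℕ → (H →L[ℂ] H) → Finset ℕ → Prop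
  | zero : BlockSum e p c 0 0 ∅
  | succ {k : ℕ} {B : H →L[ℂ] H} {A : Finset ℕ} (b : H →L[ℂ] H) (A' : Finset ℕ) :
      BlockSum e p c k B A → Disjoint A A' → b = proj e A' * b * proj e A' →
      IsCompactOperator b → c ≤ nrm p b → nrm p b ≤ 1 → BlockSum e p c (k + 1) (B + b) (A ∪ A')

theorem BlockSum.compact {e : HilbertBasis ℕ ℂ H} {p c : ℝ≥0∞} {k : ℕ} {B : H →L[ℂ] H}
    {A : Finset ℕ} (h : BlockSum e p c k B A) : IsCompactOperator B := by
  induction h with
  | zero => exact isCompactOperator_zero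
  | succ b A' _ _ _ hb _ _ ih => exact ih.add hb

theorem BlockSum.supp {e : HilbertBasis ℕ ℂ H} {p c : ℝ≥0∞} {k : ℕ} {B : H →L[ℂ] H}
    {A : Finset ℕ} (h : BlockSum e p c k B A) : B = proj e A * B * proj e A := by
  induction h with
  | zero => simp
  | @succ k B A b A' _ hdisj hbA hb _ _ ih =>
    have hBb : ∀ C : Finset ℕ, A ⊆ C → proj e C * B * proj e C = B := by
      intro C hC
      conv_lhs => rw [ih]
      rw [← mul_assoc, ← mul_assoc, proj_mul, Finset.inter_eq_right.mpr hC, mul_assoc, proj_mul,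
        Finset.inter_eq_left.mpr hC, ← ih]
    have hbb : ∀ C : Finset ℕ, A' ⊆ C → proj e C * b * proj e C = b := by
      intro C hC
      conv_lhs => rw [hbA]
      rw [← mul_assoc, ← mul_assoc, proj_mul, Finset.inter_eq_right.mpr hC, mul_assoc, proj_mul,
        Finset.inter_eq_left.mpr hC, ← hbA]
    rw [mul_add, add_mul, hBb _ Finset.subset_union_left, hbb _ Finset.subset_union_right]

theorem orth_of_disjoint {e : HilbertBasis ℕ ℂ H} {A A' : Finset ℕ} (hd : Disjoint A A')
    {B b : H →L[ℂ] H} (hB : B = proj e A * B * proj e A) (hb : b = proj e A' * b * proj e A') :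
    star B * b = 0 ∧ B * star b = 0 := by
  have h0 : proj e A * proj e A' = 0 := by
    rw [proj_mul, Finset.disjoint_iff_inter_eq_empty.mp hd]
    simp [proj]
  constructor
  · rw [hB, hb, star_mul, star_mul, star_proj]
    calc proj e A * (star B * proj e A) * (proj e A' * b * proj e A')
        = proj e A * star B * (proj e A * proj e A') * b * proj e A' := by noncomm_ring
      _ = 0 := by rw [h0]; simp
  · rw [hB, hb, star_mul, star_mul, star_proj]
    calc proj e A * B * proj e A * (proj e A' * (star b * proj e A'))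
        = proj e A * B * (proj e A * proj e A') * star b * proj e A' := by noncomm_ring
      _ = 0 := by rw [h0]; simp

theorem BlockSum.powSum_bounds {e : HilbertBasis ℕ ℂ H} {p c : ℝ≥0∞} (hp : 0 < p) (htop : p ≠ ⊤)
    {k : ℕ} {B : H →L[ℂ] H} {A : Finset ℕ} (h : BlockSum e p c k B A) :
    powSum p.toReal B ≤ k ∧ k * c ^ p.toReal ≤ powSum p.toReal B := by
  have hp' : 0 < p.toReal := ENNReal.toReal_pos hp.ne' htop
  induction h with
  | zero => simp [powSum_zero hp']
  | @succ k B A b A' hB hdisj hbA hb hc h1 ih =>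
    obtain ⟨ho1, ho2⟩ := orth_of_disjoint hdisj hB.supp hbA
    rw [powSum_add hB.compact hb ho1 ho2]
    rw [nrm_of_ne_top htop] at hc h1
    have hb1 : powSum p.toReal b ≤ 1 := by
      have := ENNReal.rpow_le_rpow h1 hp'.le
      rwa [← ENNReal.rpow_mul, inv_mul_cancel₀ hp'.ne', ENNReal.rpow_one, ENNReal.one_rpow] at this
    have hb2 : c ^ p.toReal ≤ powSum p.toReal b := by
      have := ENNReal.rpow_le_rpow hc hp'.le
      rwa [← ENNReal.rpow_mul, inv_mul_cancel₀ hp'.ne', ENNReal.rpow_one] at this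
    push_cast
    constructor
    · exact add_le_add ih.1 hb1
    · rw [add_mul, one_mul]
      exact add_le_add ih.2 hb2

theorem BlockSum.norm_le_one {e : HilbertBasis ℕ ℂ H} {c : ℝ≥0∞}
    {k : ℕ} {B : H →L[ℂ] H} {A : Finset ℕ} (h : BlockSum e ⊤ c k B A) : ‖B‖ ≤ 1 := by
  induction h with
  | zero => simp
  | @succ k B A b A' hB hdisj hbA hb hc h1 ih =>
    obtain ⟨ho1, ho2⟩ := orth_of_disjoint hdisj hB.supp hbA
    have hb1 : ‖b‖ ≤ 1 := by
      rw [nrm_top] at h1
      exact ENNReal.ofReal_le_one.mp h1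
    apply ContinuousLinearMap.opNorm_le_bound _ zero_le_one
    intro x
    rw [one_mul]
    have e1 : ‖(B + b) x‖ ^ 2 = ‖B x‖ ^ 2 + ‖b x‖ ^ 2 := by
      have hin : ⟪B x, b x⟫_ℂ = 0 := by
        have : ⟪x, (star B * b) x⟫_ℂ = ⟪B x, b x⟫_ℂ := by
          rw [mul_apply_eq_comp, ContinuousLinearMap.star_eq_adjoint,
            ContinuousLinearMap.adjoint_inner_right]
        rw [← this, ho1]; simp
      have := norm_add_sq_eq_norm_sq_add_norm_sq_of_inner_eq_zero (𝕜 := ℂ) (B x) (b x) hin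
      rw [sq, sq, sq]
      exact this
    have e2 : ‖B x‖ ≤ ‖proj e A x‖ := by
      have h2 : B x = (proj e A * B) (proj e A x) := by
        conv_lhs => rw [hB.supp]
        rfl
      rw [h2]
      calc ‖(proj e A * B) (proj e A x)‖ ≤ ‖proj e A * B‖ * ‖proj e A x‖ :=
            ContinuousLinearMap.le_opNorm _ _
        _ ≤ 1 * ‖proj e A x‖ := by
            gcongr
            calc ‖proj e A * B‖ ≤ ‖proj e A‖ * ‖B‖ := norm_mul_le _ _
              _ ≤ 1 * 1 := by gcongr; exact norm_proj_le e _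
              _ = 1 := one_mul 1
        _ = _ := one_mul _
    have e3 : ‖b x‖ ≤ ‖proj e A' x‖ := by
      have h2 : b x = (proj e A' * b) (proj e A' x) := by
        conv_lhs => rw [hbA]
        rfl
      rw [h2]
      calc ‖(proj e A' * b) (proj e A' x)‖ ≤ ‖proj e A' * b‖ * ‖proj e A' x‖ :=
            ContinuousLinearMap.le_opNorm _ _
        _ ≤ 1 * ‖proj e A' x‖ := by
            gcongr
            calc ‖proj e A' * b‖ ≤ ‖proj e A'‖ * ‖b‖ := norm_mul_le _ _
              _ ≤ 1 * 1 := by gcongr; exact norm_proj_le e _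
              _ = 1 := one_mul 1
        _ = _ := one_mul _
    have e4 : ‖proj e A x‖ ^ 2 + ‖proj e A' x‖ ^ 2 ≤ ‖x‖ ^ 2 := by
      refine hasSum_le ?_ ((hasSum_norm_sq e (proj e A x)).add (hasSum_norm_sq e (proj e A' x)))
        (hasSum_norm_sq e x)
      intro j
      rw [inner_proj, inner_proj]
      by_cases hj : j ∈ A
      · have hj' : j ∉ A' := Finset.disjoint_left.mp hdisj hj
        simp [hj, hj']
      · simp only [hj, if_false]
        split_ifs <;> simp
    have : ‖(B + b) x‖ ^ 2 ≤ ‖x‖ ^ 2 := by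
      rw [e1]
      refine le_trans ?_ e4
      gcongr
    exact le_of_sq_le_sq this (norm_nonneg _)

theorem BlockSum.nrm_le {e : HilbertBasis ℕ ℂ H} {p c : ℝ≥0∞} (hp : 0 < p)
    {k : ℕ} {B : H →L[ℂ] H} {A : Finset ℕ} (h : BlockSum e p c k B A) :
    nrm p B ≤ (k : ℝ≥0∞) ^ (p.toReal)⁻¹ := by
  by_cases htop : p = ⊤
  · subst htop
    rw [nrm_top]
    have h1 : (k : ℝ≥0∞) ^ ((⊤ : ℝ≥0∞).toReal)⁻¹ = 1 := by simp
    rw [h1]
    exact ENNReal.ofReal_le_one.mpr h.norm_le_one
  · rw [nrm_of_ne_top htop]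
    have := (h.powSum_bounds hp htop).1
    gcongr

theorem BlockSum.le_nrm {e : HilbertBasis ℕ ℂ H} {p c : ℝ≥0∞} (hp : 0 < p) (htop : p ≠ ⊤)
    {k : ℕ} {B : H →L[ℂ] H} {A : Finset ℕ} (h : BlockSum e p c k B A) :
    c * (k : ℝ≥0∞) ^ (p.toReal)⁻¹ ≤ nrm p B := by
  have hp' : 0 < p.toReal := ENNReal.toReal_pos hp.ne' htop
  rw [nrm_of_ne_top htop]
  have h1 := (h.powSum_bounds hp htop).2
  have h2 := ENNReal.rpow_le_rpow h1 (z := (p.toReal)⁻¹) (by positivity)
  rwa [ENNReal.mul_rpow_of_nonneg _ _ (by positivity), ← ENNReal.rpow_mul,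
    mul_inv_cancel₀ hp'.ne', ENNReal.rpow_one, mul_comm] at h2

end Pool.Agent.Schatten
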