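import Pool.Agent.Schatten.Nrm

/-!
The Schatten classes as complex vector spaces of operators.
-/

open scoped ENNReal

namespace Pool.Agent.Schatten

universe u

variable {H : Type u} [NormedAddCommGroup H] [InnerProductSpace ℂ H] [CompleteSpace H]

theorem isSchatten_iff {p : ℝ≥0∞} (hp : 0 < p) (T : H →L[ℂ] H) :
    IsSchatten p T ↔ IsCompactOperator T ∧ nrm p T ≠ ⊤ := by
  unfold IsSchatten
  apply and_congr_right
  intro _
  by_cases htop : p = ⊤
  · subst htop
    simp [nrm_top]
  · have hp' : 0 < p.toReal := ENNReal.toReal_pos hp.ne' htop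
    rw [nrm_of_ne_top htop]
    constructor
    · intro h
      exact ENNReal.rpow_ne_top_of_nonneg (by positivity) (h htop).ne
    · intro h _
      rw [lt_top_iff_ne_top]
      intro h'
      rw [h', ENNReal.top_rpow_of_pos (by positivity)] at h
      exact h rfl

variable (H) in
/-- The Schatten class `S_p(H)` for `0 < p ≤ ∞`, a complex vector space of bounded operators. -/
def schattenClass (p : ℝ≥0∞) (hp : 0 < p) : Submodule ℂ (H →L[ℂ] H) where
  carrier := {T | IsSchatten p T}
  zero_mem' := by
    show IsSchatten p 0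
    rw [isSchatten_iff hp]
    exact ⟨isCompactOperator_zero, by rw [nrm_zero hp]; simp⟩
  add_mem' := by
    intro S T hS hT
    have hS' := (isSchatten_iff hp S).mp hS
    have hT' := (isSchatten_iff hp T).mp hT
    show IsSchatten p (S + T)
    rw [isSchatten_iff hp]
    refine ⟨hS'.1.add hT'.1, ?_⟩
    refine ne_top_of_le_ne_top ?_ (nrm_add_le hp hS'.1 hT'.1)
    exact ENNReal.mul_ne_top (qconst_ne_top p) (ENNReal.add_ne_top.mpr ⟨hS'.2, hT'.2⟩)
  smul_mem' := by
    intro c T hT
    have hT' := (isSchatten_iff hp T).mp hT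
    show IsSchatten p (c • T)
    rw [isSchatten_iff hp]
    refine ⟨hT'.1.smul c, ?_⟩
    rw [nrm_smul hp hT'.1]
    exact ENNReal.mul_ne_top ENNReal.ofReal_ne_top hT'.2

end Pool.Agent.Schatten
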