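import Pool.Agent.Schatten.Select

/-!
The gliding hump argument: a linear isometry `S_q → S_p` maps suitable normalised diagonal
operators to almost block-diagonal sums.
-/

open scoped ENNReal InnerProductSpace Topology
open Module.End MeasureTheory Filter

namespace Pool.Agent.Schatten

universe u v

variable {H : Type u} [NormedAddCommGroup H] [InnerProductSpace ℂ H] [CompleteSpace H]
variable (e : HilbertBasis ℕ ℂ H)

theorem diag_mem {q : ℝ≥0∞} (hq : 0 < q) (s : Finset ℕ) (a : ℕ → ℂ) :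
    diag e s a ∈ schattenClass H q hq := by
  show IsSchatten q (diag e s a)
  refine ⟨isCompact_diag e s a, fun htop => ?_⟩
  have hq' : 0 < q.toReal := ENNReal.toReal_pos hq.ne' htop
  rw [powSum_diag e hq']
  exact ENNReal.sum_lt_top.mpr (fun _ _ => ENNReal.ofReal_lt_top)

theorem single_mem {q : ℝ≥0∞} (hq : 0 < q) (n : ℕ) : proj e {n} ∈ schattenClass H q hq := by
  have := diag_mem e hq {n} (fun _ => 1)
  simpa [diag] using this

variable {p q : ℝ≥0∞} {hp : 0 < p} {hq : 0 < q}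

/-- The images of the diagonal matrix units. -/
noncomputable def img (J : schattenClass H q hq →ₗ[ℂ] schattenClass H p hp) (n : ℕ) : H →L[ℂ] H :=
  (J ⟨proj e {n}, single_mem e hq n⟩ : H →L[ℂ] H)

theorem J_diag (J : schattenClass H q hq →ₗ[ℂ] schattenClass H p hp) (s : Finset ℕ) (a : ℕ → ℂ) :
    (J ⟨diag e s a, diag_mem e hq s a⟩ : H →L[ℂ] H) = ∑ n ∈ s, a n • img e J n := by
  have h1 : (⟨diag e s a, diag_mem e hq s a⟩ : schattenClass H q hq) =
      ∑ n ∈ s, a n • (⟨proj e {n}, single_mem e hq n⟩ : schattenClass H q hq) := by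
    apply Subtype.ext
    rw [Submodule.coe_sum]
    simp only [Submodule.coe_smul]
    rfl
  rw [h1, map_sum, Submodule.coe_sum]
  apply Finset.sum_congr rfl
  intro n _
  rw [map_smul, Submodule.coe_smul]
  rfl

theorem compact_of_mem {p : ℝ≥0∞} {hp : 0 < p} (T : schattenClass H p hp) :
    IsCompactOperator (T : H →L[ℂ] H) := T.2.1

theorem nrm_ne_top_of_mem {p : ℝ≥0∞} {hp : 0 < p} (T : schattenClass H p hp) :
    nrm p (T : H →L[ℂ] H) ≠ ⊤ := ((isSchatten_iff hp _).mp T.2).2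

theorem norm_comb_le (J : schattenClass H q hq →ₗ[ℂ] schattenClass H p hp)
    (hJ : ∀ T, nrm p (J T : H →L[ℂ] H) = nrm q (T : H →L[ℂ] H)) {s : Finset ℕ} (hs : s.Nonempty)
    {a : ℕ → ℂ} (ha : ∀ n ∈ s, ‖a n‖ = 1) :
    ‖∑ n ∈ s, a n • img e J n‖ ≤ (s.card : ℝ) ^ (q.toReal)⁻¹ := by
  have h1 := norm_le_nrm hp (compact_of_mem (J ⟨diag e s a, diag_mem e hq s a⟩))
  rw [hJ] at h1
  simp only [nrm_diag e hq hs ha] at h1
  rw [J_diag] at h1
  have h2 : (s.card : ℝ≥0∞) ^ (q.toReal)⁻¹ = ENNReal.ofReal ((s.card : ℝ) ^ (q.toReal)⁻¹) := by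
    rw [← ENNReal.ofReal_rpow_of_nonneg (by positivity) (by positivity), ENNReal.ofReal_natCast]
  rw [h2] at h1
  exact (ENNReal.ofReal_le_ofReal_iff (by positivity)).mp h1

theorem norm_img_le (J : schattenClass H q hq →ₗ[ℂ] schattenClass H p hp)
    (hJ : ∀ T, nrm p (J T : H →L[ℂ] H) = nrm q (T : H →L[ℂ] H)) (n : ℕ) : ‖img e J n‖ ≤ 1 := by
  have := norm_comb_le e J hJ (s := {n}) (by simp) (a := fun _ => 1) (by simp)
  simpa using this

theorem norm_pair_le (J : schattenClass H q hq →ₗ[ℂ] schattenClass H p hp)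
    (hJ : ∀ T, nrm p (J T : H →L[ℂ] H) = nrm q (T : H →L[ℂ] H)) (n m : ℕ) :
    ‖img e J n - img e J m‖ ≤ 2 := by
  calc ‖img e J n - img e J m‖ ≤ ‖img e J n‖ + ‖img e J m‖ := norm_sub_le _ _
    _ ≤ 1 + 1 := add_le_add (norm_img_le e J hJ n) (norm_img_le e J hJ m)
    _ = 2 := by norm_num

/-- For `α > 1` the power `(2 r)^α` beats linear growth. -/
theorem exists_r_gt {α A B : ℝ} (hα : 1 < α) (hB : 0 < B) :
    ∃ r : ℕ, 1 ≤ r ∧ r * A + 1 ≤ B * (2 * r : ℝ) ^ α := by
  have h1 : Tendsto (fun r : ℕ => (2 * (r : ℝ)) ^ (α - 1)) atTop atTop := by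
    apply (tendsto_rpow_atTop (by linarith)).comp
    apply Tendsto.const_mul_atTop (by norm_num)
    exact tendsto_natCast_atTop_atTop
  obtain ⟨r, hr1, hr2⟩ := ((eventually_ge_atTop 1).and
    (h1.eventually (eventually_ge_atTop ((A + 1) / B)))).exists
  refine ⟨r, hr1, ?_⟩
  have hr1' : (1 : ℝ) ≤ r := by exact_mod_cast hr1
  have h2r : (0 : ℝ) < 2 * r := by positivity
  have e1 : (2 * r : ℝ) ^ α = (2 * r) * (2 * r : ℝ) ^ (α - 1) := by
    rw [Real.rpow_sub_one h2r.ne']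
    field_simp
  rw [div_le_iff₀ hB] at hr2
  rw [e1]
  calc r * A + 1 ≤ r * (A + 1) := by nlinarith
    _ ≤ r * ((2 * (r : ℝ)) ^ (α - 1) * B) := by gcongr
    _ ≤ B * (2 * r * (2 * r : ℝ) ^ (α - 1)) := by
        have : 0 ≤ r * ((2 * (r : ℝ)) ^ (α - 1) * B) := by positivity
        nlinarith

/-- For `α < 1` linear growth beats the power `(2 r)^α`. -/
theorem exists_r_lt {α A B : ℝ} (hα : α < 1) (hA : 0 < A) :
    ∃ r : ℕ, 1 ≤ r ∧ B * (2 * r : ℝ) ^ α < r * A - 1 := by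
  have h1 : Tendsto (fun r : ℕ => (2 * (r : ℝ)) ^ (1 - α)) atTop atTop := by
    apply (tendsto_rpow_atTop (by linarith)).comp
    apply Tendsto.const_mul_atTop (by norm_num)
    exact tendsto_natCast_atTop_atTop
  have h2 : Tendsto (fun r : ℕ => (r : ℝ) * A) atTop atTop :=
    Tendsto.atTop_mul_const hA tendsto_natCast_atTop_atTop
  obtain ⟨r, ⟨hr1, hr3⟩, hr2⟩ := (((eventually_ge_atTop 1).and
    (h2.eventually (eventually_gt_atTop 2))).and
    (h1.eventually (eventually_ge_atTop (4 * B / A)))).exists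
  refine ⟨r, hr1, ?_⟩
  have hr1' : (1 : ℝ) ≤ r := by exact_mod_cast hr1
  have h2r : (0 : ℝ) < 2 * r := by positivity
  have e1 : (2 * r : ℝ) ^ α * (2 * r : ℝ) ^ (1 - α) = 2 * r := by
    rw [← Real.rpow_add h2r]
    simp
  have hpos : 0 < (2 * r : ℝ) ^ (1 - α) := Real.rpow_pos_of_pos h2r _
  have hpos' : 0 < (2 * r : ℝ) ^ α := Real.rpow_pos_of_pos h2r _
  rw [div_le_iff₀ hA] at hr2
  have h3 : B * (2 * r : ℝ) ^ α * 4 ≤ (2 * r) * A := by
    calc B * (2 * r : ℝ) ^ α * 4 = (4 * B) * (2 * r : ℝ) ^ α := by ring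
      _ ≤ ((2 * (r : ℝ)) ^ (1 - α) * A) * (2 * r : ℝ) ^ α := by gcongr
      _ = ((2 * r : ℝ) ^ α * (2 * r : ℝ) ^ (1 - α)) * A := by ring
      _ = (2 * r) * A := by rw [e1]
  nlinarith

/-- Key selection lemma: if `q ≠ 2`, there are far-out unimodular diagonal operators whose
normalised images are small on the first basis vectors, together with the adjoints. -/
theorem exists_far (J : schattenClass H q hq →ₗ[ℂ] schattenClass H p hp)
    (hJ : ∀ T, nrm p (J T : H →L[ℂ] H) = nrm q (T : H →L[ℂ] H)) (hq2 : (q.toReal)⁻¹ ≠ 1 / 2)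
    (K L : ℕ) {ε : ℝ} (hε : 0 < ε) :
    ∃ (s : Finset ℕ) (a : ℕ → ℂ), s.Nonempty ∧ (∀ n ∈ s, ‖a n‖ = 1) ∧ (∀ n ∈ s, L ≤ n) ∧
      sizeK e K (∑ n ∈ s, a n • img e J n) ≤ (ε * (s.card : ℝ) ^ (q.toReal)⁻¹) ^ 2 := by
  set θ : ℝ := (q.toReal)⁻¹ with hθ
  have hθ0 : 0 ≤ θ := by positivity
  rcases lt_or_gt_of_ne hq2 with hlt | hgt
  · -- q > 2
    by_contra hcon
    push Not at hcon
    have hC := norm_img_le e J hJ
    have hlo : ∀ n m, L ≤ n → n < m →
        (ε * (2 : ℝ) ^ θ) ^ 2 ≤ sizeK e K (img e J n - img e J m) ∧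
        sizeK e K (img e J n - img e J m) ≤ 2 * K * 2 ^ 2 := by
      intro n m hn hnm
      constructor
      · have h1 := hcon {n, m} (fun k => if k = n then 1 else -1) (by simp)
          (by intro k _; split_ifs <;> simp)
          (by intro k hk; simp only [Finset.mem_insert, Finset.mem_singleton] at hk; omega)
        have h2 : ({n, m} : Finset ℕ).card = 2 := Finset.card_pair hnm.ne
        rw [h2, Finset.sum_pair hnm.ne] at h1
        simp only [if_true, hnm.ne', if_false, one_smul, neg_smul] at h1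
        rw [← sub_eq_add_neg] at h1
        push_cast at h1
        exact h1.le
      · refine (sizeK_le e K _).trans ?_
        gcongr
        exact norm_pair_le e J hJ n m
    obtain ⟨r, hr1, hr⟩ := exists_r_lt (α := 2 * θ) (A := (ε * (2 : ℝ) ^ θ) ^ 2) (B := 2 * K)
      (by linarith) (by positivity)
    obtain ⟨s, a, ha, hsL, hcard, hlo', _⟩ := exists_selection e hC K L hlo r 1 one_pos
    have hs : s.Nonempty := by
      rw [← Finset.card_pos, hcard]; omega
    have h3 := sizeK_le e K (∑ n ∈ s, a n • img e J n)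
    have h4 := norm_comb_le e J hJ hs ha
    have h5 : ‖∑ n ∈ s, a n • img e J n‖ ^ 2 ≤ (2 * r : ℝ) ^ (2 * θ) := by
      calc ‖∑ n ∈ s, a n • img e J n‖ ^ 2 ≤ ((s.card : ℝ) ^ θ) ^ 2 := by gcongr
        _ = (2 * r : ℝ) ^ (2 * θ) := by
            rw [hcard, ← Real.rpow_natCast, ← Real.rpow_mul (by positivity)]
            push_cast
            congr 1
            ring
    have h6 : 2 * K * ‖∑ n ∈ s, a n • img e J n‖ ^ 2 ≤ 2 * K * (2 * r : ℝ) ^ (2 * θ) := by gcongr
    linarith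
  · -- q < 2
    have hC := norm_img_le e J hJ
    have hhi : ∀ n m, L ≤ n → n < m → 0 ≤ sizeK e K (img e J n - img e J m) ∧
        sizeK e K (img e J n - img e J m) ≤ 2 * K * 2 ^ 2 := by
      intro n m hn hnm
      refine ⟨sizeK_nonneg e K _, (sizeK_le e K _).trans ?_⟩
      gcongr
      exact norm_pair_le e J hJ n m
    obtain ⟨r, hr1, hr⟩ := exists_r_gt (α := 2 * θ) (A := 2 * K * 2 ^ 2) (B := ε ^ 2)
      (by linarith) (by positivity)
    obtain ⟨s, a, ha, hsL, hcard, _, hhi'⟩ := exists_selection e hC K L hhi r 1 one_pos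
    have hs : s.Nonempty := by
      rw [← Finset.card_pos, hcard]; omega
    refine ⟨s, a, hs, ha, hsL, ?_⟩
    refine hhi'.trans (hr.trans (le_of_eq ?_))
    rw [mul_pow, hcard, ← Real.rpow_natCast ((((2 * r : ℕ) : ℝ)) ^ θ), ← Real.rpow_mul (by positivity)]
    push_cast
    congr 2
    ring

end Pool.Agent.Schatten
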