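import Pool.Agent.Schatten.Eigen

/-!
The counting function of the singular values of a compact operator and its basic properties.
-/

open scoped ENNReal InnerProductSpace
open Module.End MeasureTheory

namespace Pool.Agent.Schatten

universe u v

variable {H : Type u} [NormedAddCommGroup H] [InnerProductSpace ℂ H]

/-- `T` is bounded by `r` on the common kernel of `n` linear functionals. -/
def Codim (T : H →L[ℂ] H) (r : ℝ) (n : ℕ) : Prop :=
  ∃ Φ : Fin n → (H →ₗ[ℂ] ℂ), ∀ x, (∀ i, Φ i x = 0) → ‖T x‖ ≤ r * ‖x‖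

/-- The least `n` such that `T` is bounded by `r` on a subspace of codimension `n`. -/
noncomputable def cnt (T : H →L[ℂ] H) (r : ℝ) : ℕ∞ := ⨅ (n : ℕ) (_ : Codim T r n), (n : ℕ∞)

theorem cnt_le {T : H →L[ℂ] H} {r : ℝ} {n : ℕ} (h : Codim T r n) : cnt T r ≤ n :=
  iInf₂_le n h

theorem codim_of_cnt_ne_top {T : H →L[ℂ] H} {r : ℝ} (h : cnt T r ≠ ⊤) :
    ∃ n : ℕ, cnt T r = n ∧ Codim T r n := by
  classical
  have hex : ∃ n, Codim T r n := by
    by_contra hcon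
    push Not at hcon
    apply h
    rw [cnt]
    simp [hcon]
  refine ⟨Nat.find hex, le_antisymm (cnt_le (Nat.find_spec hex)) ?_, Nat.find_spec hex⟩
  rw [cnt]
  refine le_iInf₂ ?_
  intro n hn
  exact_mod_cast Nat.find_min' hex hn

theorem le_cnt {T : H →L[ℂ] H} {r : ℝ} {m : ℕ∞} (h : ∀ n : ℕ, Codim T r n → m ≤ n) :
    m ≤ cnt T r :=
  le_iInf₂ h

theorem Codim.add {S T : H →L[ℂ] H} {r s : ℝ} {m n : ℕ} (hS : Codim S r m) (hT : Codim T s n) :
    Codim (S + T) (r + s) (m + n) := by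
  obtain ⟨Φ, hΦ⟩ := hS
  obtain ⟨Ψ, hΨ⟩ := hT
  refine ⟨Fin.append Φ Ψ, fun x hx => ?_⟩
  have h1 : ∀ i, Φ i x = 0 := fun i => by simpa using hx (Fin.castAdd n i)
  have h2 : ∀ i, Ψ i x = 0 := fun i => by simpa using hx (Fin.natAdd m i)
  calc ‖(S + T) x‖ ≤ ‖S x‖ + ‖T x‖ := norm_add_le _ _
    _ ≤ r * ‖x‖ + s * ‖x‖ := add_le_add (hΦ x h1) (hΨ x h2)
    _ = (r + s) * ‖x‖ := by ring

theorem cnt_add_le (S T : H →L[ℂ] H) (r s : ℝ) : cnt (S + T) (r + s) ≤ cnt S r + cnt T s := by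
  by_cases h1 : cnt S r = ⊤
  · rw [h1, top_add]; exact le_top
  by_cases h2 : cnt T s = ⊤
  · rw [h2, add_top]; exact le_top
  obtain ⟨m, hm, hm'⟩ := codim_of_cnt_ne_top h1
  obtain ⟨n, hn, hn'⟩ := codim_of_cnt_ne_top h2
  rw [hm, hn, ← Nat.cast_add]
  exact cnt_le (hm'.add hn')

theorem Codim.mul {A T B : H →L[ℂ] H} (hA : ‖A‖ ≤ 1) (hB : ‖B‖ ≤ 1) {r : ℝ} (hr : 0 ≤ r) {n : ℕ}
    (hT : Codim T r n) : Codim (A * T * B) r n := by
  obtain ⟨Φ, hΦ⟩ := hT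
  refine ⟨fun i => (Φ i).comp (B : H →ₗ[ℂ] H), fun x hx => ?_⟩
  have h1 : ‖T (B x)‖ ≤ r * ‖B x‖ := hΦ (B x) (fun i => hx i)
  calc ‖(A * T * B) x‖ = ‖A (T (B x))‖ := rfl
    _ ≤ ‖A‖ * ‖T (B x)‖ := A.le_opNorm _
    _ ≤ 1 * ‖T (B x)‖ := by gcongr
    _ ≤ r * ‖B x‖ := by rw [one_mul]; exact h1
    _ ≤ r * (‖B‖ * ‖x‖) := by gcongr; exact B.le_opNorm _
    _ ≤ r * (1 * ‖x‖) := by gcongr
    _ = r * ‖x‖ := by ring

theorem cnt_mul_le {A T B : H →L[ℂ] H} (hA : ‖A‖ ≤ 1) (hB : ‖B‖ ≤ 1) {r : ℝ} (hr : 0 ≤ r) :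
    cnt (A * T * B) r ≤ cnt T r := by
  refine le_cnt fun n hn => cnt_le (hn.mul hA hB hr)

theorem cnt_eq_zero_of_norm_le {T : H →L[ℂ] H} {r : ℝ} (h : ‖T‖ ≤ r) : cnt T r = 0 := by
  have : Codim T r 0 := ⟨Fin.elim0, fun x _ => (T.le_opNorm x).trans (by gcongr)⟩
  exact le_antisymm (by simpa using cnt_le this) bot_le

theorem norm_le_of_cnt_eq_zero {T : H →L[ℂ] H} {r : ℝ} (hr : 0 ≤ r) (h : cnt T r = 0) :
    ‖T‖ ≤ r := by
  obtain ⟨n, hn, hn'⟩ := codim_of_cnt_ne_top (T := T) (r := r) (by rw [h]; simp)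
  rw [h] at hn
  have hn0 : n = 0 := by exact_mod_cast hn.symm
  subst hn0
  obtain ⟨Φ, hΦ⟩ := hn'
  exact T.opNorm_le_bound hr (fun x => hΦ x (fun i => Fin.elim0 i))

theorem cnt_antitone (T : H →L[ℂ] H) : Antitone (cnt T) := by
  intro r s hrs
  refine le_cnt fun n hn => cnt_le ?_
  obtain ⟨Φ, hΦ⟩ := hn
  exact ⟨Φ, fun x hx => (hΦ x hx).trans (by gcongr)⟩

theorem cnt_two_smul (T : H →L[ℂ] H) (r : ℝ) : cnt T (r / 2) = cnt ((2 : ℂ) • T) r := by
  have key : ∀ n, Codim T (r / 2) n ↔ Codim ((2 : ℂ) • T) r n := by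
    intro n
    unfold Codim
    refine exists_congr fun Φ => forall_congr' fun x => imp_congr_right fun _ => ?_
    rw [smul_apply, norm_smul]
    have : ‖(2 : ℂ)‖ = 2 := by norm_num
    rw [this]
    constructor <;> intro h <;> linarith
  unfold cnt
  simp only [key]

variable [CompleteSpace H]

theorem hasSum_norm_sq {κ : Type v} (b : HilbertBasis κ ℂ H) (x : H) :
    HasSum (fun k => ‖⟪b k, x⟫_ℂ‖ ^ 2) (‖x‖ ^ 2) := by
  have h1 := b.hasSum_inner_mul_inner x x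
  have h2 := h1.mapL Complex.reCLM
  have h3 : Complex.reCLM ⟪x, x⟫_ℂ = ‖x‖ ^ 2 := by
    rw [inner_self_eq_norm_sq_to_K]
    show (((‖x‖ : ℂ)) ^ 2).re = _
    rw [← Complex.ofReal_pow, Complex.ofReal_re]
  rw [h3] at h2
  refine h2.congr_fun ?_ |> fun h => h
  intro k
  show ‖⟪b k, x⟫_ℂ‖ ^ 2 = (⟪x, b k⟫_ℂ * ⟪b k, x⟫_ℂ).re
  rw [← inner_conj_symm x (b k), Complex.conj_mul', ← Complex.ofReal_pow, Complex.ofReal_re]

theorem hasSum_norm_apply_sq {T : H →L[ℂ] H} {κ : Type v} (b : HilbertBasis κ ℂ H)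
    (hb : ∀ k l, k ≠ l → ⟪T (b k), T (b l)⟫_ℂ = 0) (x : H) :
    HasSum (fun k => ‖T (b k)‖ ^ 2 * ‖⟪b k, x⟫_ℂ‖ ^ 2) (‖T x‖ ^ 2) := by
  have h1 := b.hasSum_inner_mul_inner x ((star T * T) x)
  have h2 := h1.mapL Complex.reCLM
  have h3 : Complex.reCLM ⟪x, (star T * T) x⟫_ℂ = ‖T x‖ ^ 2 := by
    rw [gram_inner, inner_self_eq_norm_sq_to_K]
    show (((‖T x‖ : ℂ)) ^ 2).re = _
    rw [← Complex.ofReal_pow, Complex.ofReal_re]
  rw [h3] at h2
  refine h2.congr_fun ?_ |> fun h => h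
  intro k
  show ‖T (b k)‖ ^ 2 * ‖⟪b k, x⟫_ℂ‖ ^ 2 = (⟪x, b k⟫_ℂ * ⟪b k, (star T * T) x⟫_ℂ).re
  have h0 : ⟪(star T * T) (b k), x⟫_ℂ = ⟪b k, (star T * T) x⟫_ℂ := (gram_symm T) (b k) x
  rw [← h0, gram_apply_basis b hb k, inner_smul_left, map_pow, Complex.conj_ofReal,
    ← inner_conj_symm x (b k), ← mul_assoc, mul_comm _ (((‖T (b k)‖ : ℂ)) ^ 2), mul_assoc,
    Complex.conj_mul', ← Complex.ofReal_pow, ← Complex.ofReal_pow, ← Complex.ofReal_mul,
    Complex.ofReal_re]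

/-- Min-max: for a basis diagonalising `T* T`, the number of basis vectors with `‖T b_k‖ > r`
equals `cnt T r`. -/
theorem encard_le_of_codim {T : H →L[ℂ] H} {κ : Type v} (b : HilbertBasis κ ℂ H)
    (hb : ∀ k l, k ≠ l → ⟪T (b k), T (b l)⟫_ℂ = 0) {r : ℝ} (hr : 0 ≤ r) {n : ℕ}
    (h : Codim T r n) : {k | r < ‖T (b k)‖}.encard ≤ n := by
  classical
  by_contra hcon
  push Not at hcon
  obtain ⟨t, htsub, htcard⟩ := Set.exists_subset_encard_eq (s := {k | r < ‖T (b k)‖})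
    (k := ((n + 1 : ℕ) : ℕ∞)) (by
      have := Order.add_one_le_of_lt hcon
      exact_mod_cast this)
  have htfin : t.Finite := Set.finite_of_encard_eq_coe htcard
  obtain ⟨F, rfl⟩ := htfin.exists_finset_coe
  rw [Set.encard_coe_eq_coe_finsetCard] at htcard
  have hcard : F.card = n + 1 := by exact_mod_cast htcard
  obtain ⟨Φ, hΦ⟩ := h
  -- the map from coefficients to functionals has a kernel
  let g : (F → ℂ) →ₗ[ℂ] (Fin n → ℂ) :=
    LinearMap.pi (fun i => (Φ i).comp (Fintype.linearCombination ℂ (fun k : F => b k.1)))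
  have hker : LinearMap.ker g ≠ ⊥ := by
    apply LinearMap.ker_ne_bot_of_finrank_lt
    simp [hcard]
  obtain ⟨c, hc, hc0⟩ := Submodule.exists_mem_ne_zero_of_ne_bot hker
  set x : H := Fintype.linearCombination ℂ (fun k : F => b k.1) c with hx
  have hΦx : ∀ i, Φ i x = 0 := by
    intro i
    have : g c = 0 := hc
    exact congrFun this i
  have hxle := hΦ x hΦx
  have hcoef : ∀ k : F, ⟪b k.1, x⟫_ℂ = c k := by
    intro k
    rw [hx, Fintype.linearCombination_apply, inner_sum]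
    simp only [inner_smul_right]
    rw [Finset.sum_eq_single k]
    · rw [inner_self_eq_norm_sq_to_K, b.orthonormal.1 k.1]; simp
    · intro j _ hj
      rw [b.orthonormal.inner_eq_zero (fun h => hj (Subtype.ext h).symm), mul_zero]
    · intro h; exact absurd (Finset.mem_univ k) h
  have hcoef' : ∀ k, k ∉ F → ⟪b k, x⟫_ℂ = 0 := by
    intro k hk
    rw [hx, Fintype.linearCombination_apply, inner_sum]
    simp only [inner_smul_right]
    apply Finset.sum_eq_zero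
    intro j _
    rw [b.orthonormal.inner_eq_zero (fun h : k = j.1 => hk (by rw [h]; exact j.2)), mul_zero]
  obtain ⟨k0, hk0⟩ : ∃ k0, c k0 ≠ 0 := by
    by_contra hcon
    push Not at hcon
    exact hc0 (funext hcon)
  have h1 := hasSum_norm_apply_sq b hb x
  have h2 := (hasSum_norm_sq b x).mul_left (r ^ 2)
  have hlt : r ^ 2 * ‖x‖ ^ 2 < ‖T x‖ ^ 2 := by
    refine hasSum_lt (i := k0.1) ?_ ?_ h2 h1
    · intro k
      by_cases hk : k ∈ F
      · have h3 : r < ‖T (b k)‖ := htsub hk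
        simp only
        gcongr
      · simp [hcoef' k hk]
    · have h3 : r < ‖T (b k0.1)‖ := htsub k0.2
      simp only [hcoef k0]
      have h4 : 0 < ‖c k0‖ ^ 2 := by positivity
      have h5 : r ^ 2 < ‖T (b k0.1)‖ ^ 2 := by gcongr
      exact mul_lt_mul_of_pos_right h5 h4
  have hle : ‖T x‖ ^ 2 ≤ r ^ 2 * ‖x‖ ^ 2 := by
    rw [← mul_pow]
    gcongr
  exact absurd hlt (not_lt.mpr hle)

theorem codim_of_finite {T : H →L[ℂ] H} {κ : Type v} (b : HilbertBasis κ ℂ H)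
    (hb : ∀ k l, k ≠ l → ⟪T (b k), T (b l)⟫_ℂ = 0) {r : ℝ} (hr : 0 ≤ r) (F : Finset κ)
    (hF : ∀ k, r < ‖T (b k)‖ → k ∈ F) : Codim T r F.card := by
  classical
  refine ⟨fun i => (innerSL ℂ (b (F.equivFin.symm i).1)).toLinearMap, fun x hx => ?_⟩
  have hx' : ∀ k ∈ F, ⟪b k, x⟫_ℂ = 0 := by
    intro k hk
    have := hx (F.equivFin ⟨k, hk⟩)
    simpa using this
  have h1 := hasSum_norm_apply_sq b hb x
  have h2 := (hasSum_norm_sq b x).mul_left (r ^ 2)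
  have hle : ‖T x‖ ^ 2 ≤ r ^ 2 * ‖x‖ ^ 2 := by
    refine hasSum_le ?_ h1 h2
    intro k
    by_cases hk : k ∈ F
    · simp [hx' k hk]
    · have h3 : ‖T (b k)‖ ≤ r := by
        by_contra hcon
        exact hk (hF k (not_le.mp hcon))
      gcongr
  rw [← mul_pow] at hle
  exact le_of_sq_le_sq hle (by positivity)

theorem cnt_eq_encard {T : H →L[ℂ] H} {κ : Type v} (b : HilbertBasis κ ℂ H)
    (hb : ∀ k l, k ≠ l → ⟪T (b k), T (b l)⟫_ℂ = 0) {r : ℝ} (hr : 0 ≤ r) :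
    cnt T r = {k | r < ‖T (b k)‖}.encard := by
  apply le_antisymm
  · by_cases hfin : {k | r < ‖T (b k)‖}.Finite
    · obtain ⟨F, hF⟩ := hfin.exists_finset_coe
      rw [← hF, Set.encard_coe_eq_coe_finsetCard]
      apply cnt_le
      apply codim_of_finite b hb hr
      intro k hk
      have : k ∈ (F : Set κ) := by rw [hF]; exact hk
      exact this
    · rw [Set.encard_eq_top_iff.mpr hfin]
      exact le_top
  · exact le_cnt fun n hn => encard_le_of_codim b hb hr hn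

theorem powSum_eq_lintegral {T : H →L[ℂ] H} (hT : IsCompactOperator T) {p : ℝ} (hp : 0 < p) :
    powSum p T = ENNReal.ofReal p *
      ∫⁻ r in Set.Ioi (0 : ℝ), (cnt T r : ℝ≥0∞) * ENNReal.ofReal (r ^ (p - 1)) := by
  classical
  obtain ⟨κ, b, hb⟩ := exists_eigenbasis hT
  rw [powSum_eq_tsum hT b hb hp]
  let _ : MeasurableSpace κ := ⊤
  have h1 := lintegral_rpow_eq_lintegral_meas_lt_mul (Measure.count : Measure κ)
    (f := fun k => ‖T (b k)‖) (Filter.Eventually.of_forall fun k => norm_nonneg _)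
    (Measurable.aemeasurable (measurable_from_top)) hp
  rw [lintegral_count] at h1
  rw [h1]
  congr 1
  apply setLIntegral_congr_fun measurableSet_Ioi
  intro r hr
  simp only
  rw [cnt_eq_encard b hb (le_of_lt hr), Measure.count_apply (by trivial)]

end Pool.Agent.Schatten
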