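import Mathlib

/-!
Definitions of the Schatten quasi-norms on a complex Hilbert space `H`, through the eigenvalues of
`|T| = (T* T)^{1/2}` counted with multiplicity (the singular values of `T`).
-/

open scoped ENNReal InnerProductSpace
open Module.End

namespace Pool.Agent.Schatten

universe u

variable {H : Type u} [NormedAddCommGroup H] [InnerProductSpace ℂ H] [CompleteSpace H]

/-- The multiplicity of `s` as an eigenvalue of `|T| = (T* T)^{1/2}`, i.e. the dimension of
`ker (|T| - s)`. -/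
noncomputable def absMult (T : H →L[ℂ] H) (s : ℝ) : ℕ :=
  Module.finrank ℂ (eigenspace (CFC.abs T : H →L[ℂ] H).toLinearMap (s : ℂ))

/-- `∑ s_j(T)^p`, the sum of the `p`-th powers of the positive eigenvalues of `|T|`, each counted
with its multiplicity. -/
noncomputable def powSum (p : ℝ) (T : H →L[ℂ] H) : ℝ≥0∞ :=
  ∑' s : Set.Ioi (0 : ℝ), (absMult T s : ℝ≥0∞) * ENNReal.ofReal ((s : ℝ) ^ p)

/-- Membership in the Schatten class `S_p(H)`, `0 < p ≤ ∞`: `T` is compact and, for `p < ∞`,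
`∑ s_j(T)^p < ∞`. -/
def IsSchatten (p : ℝ≥0∞) (T : H →L[ℂ] H) : Prop :=
  IsCompactOperator T ∧ (p ≠ ⊤ → powSum p.toReal T < ⊤)

/-- The Schatten quasi-norm `‖T‖_p = (∑ s_j(T)^p)^{1/p}` for `0 < p < ∞`, and the operator norm
`‖T‖_∞ = s_1(T)` for `p = ∞`. -/
noncomputable def schattenNorm (p : ℝ≥0∞) (T : H →L[ℂ] H) : ℝ :=
  if p = ⊤ then ‖T‖ else (powSum p.toReal T).toReal ^ (1 / p.toReal)

end Pool.Agent.Schatten
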