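import Pool.Agent.Schatten.Block
import Pool.Agent.Schatten.Class

/-!
Unimodular diagonal operators.
-/

open scoped ENNReal InnerProductSpace Topology
open Module.End MeasureTheory Filter

namespace Pool.Agent.Schatten

universe u v

variable {H : Type u} [NormedAddCommGroup H] [InnerProductSpace ℂ H] [CompleteSpace H]

theorem ofReal_schattenNorm {p : ℝ≥0∞} (hp : 0 < p) {T : H →L[ℂ] H} (hT : IsSchatten p T) :
    ENNReal.ofReal (schattenNorm p T) = nrm p T := by
  by_cases htop : p = ⊤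
  · subst htop
    simp only [schattenNorm, nrm_top, if_true]
  · have hp' : 0 < p.toReal := ENNReal.toReal_pos hp.ne' htop
    rw [nrm_of_ne_top htop, schattenNorm, if_neg htop, one_div,
      ← ENNReal.ofReal_rpow_of_nonneg ENNReal.toReal_nonneg (by positivity),
      ENNReal.ofReal_toReal (hT.2 htop).ne]

theorem schattenNorm_nonneg (p : ℝ≥0∞) (T : H →L[ℂ] H) : 0 ≤ schattenNorm p T := by
  unfold schattenNorm
  split_ifs
  · exact norm_nonneg _
  · positivity

variable (e : HilbertBasis ℕ ℂ H)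

theorem isCompact_proj_singleton (n : ℕ) : IsCompactOperator (proj e {n}) := by
  have h1 : IsCompactOperator (innerSL ℂ (e n) : H →L[ℂ] ℂ) :=
    isCompactOperator_of_locallyCompactSpace_dom (innerSL ℂ (e n) : H →L[ℂ] ℂ)
  have h2 := h1.clm_comp ((ContinuousLinearMap.id ℂ ℂ).smulRight (e n))
  have h3 : (proj e {n} : H → H) = ((ContinuousLinearMap.id ℂ ℂ).smulRight (e n)) ∘
      (innerSL ℂ (e n) : H →L[ℂ] ℂ) := by
    ext x
    simp [proj]
  rw [h3]
  exact h2

/-- A finitely supported diagonal operator. -/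
noncomputable def diag (s : Finset ℕ) (a : ℕ → ℂ) : H →L[ℂ] H := ∑ n ∈ s, a n • proj e {n}

theorem isCompact_diag (s : Finset ℕ) (a : ℕ → ℂ) : IsCompactOperator (diag e s a) := by
  have : diag e s a ∈ compactOperator (RingHom.id ℂ) H H :=
    Submodule.sum_mem _ (fun n _ => Submodule.smul_mem _ _ (isCompact_proj_singleton e n))
  exact this

theorem diag_basis (s : Finset ℕ) (a : ℕ → ℂ) (k : ℕ) :
    diag e s a (e k) = if k ∈ s then a k • e k else 0 := by
  unfold diag
  rw [sum_apply]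
  simp only [smul_apply, proj_basis, Finset.mem_singleton]
  split_ifs with h
  · rw [Finset.sum_eq_single k]
    · simp
    · intro j _ hj
      rw [if_neg (Ne.symm hj), smul_zero]
    · intro h'; exact absurd h h'
  · apply Finset.sum_eq_zero
    intro j hj
    rw [if_neg (by rintro rfl; exact h hj), smul_zero]

theorem diag_orth (s : Finset ℕ) (a : ℕ → ℂ) (k l : ℕ) (hkl : k ≠ l) :
    ⟪diag e s a (e k), diag e s a (e l)⟫_ℂ = 0 := by
  rw [diag_basis, diag_basis]
  split_ifs
  · rw [inner_smul_left, inner_smul_right, e.orthonormal.inner_eq_zero hkl]; simp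
  · simp
  · simp
  · simp

theorem powSum_diag {p : ℝ} (hp : 0 < p) (s : Finset ℕ) (a : ℕ → ℂ) :
    powSum p (diag e s a) = ∑ n ∈ s, ENNReal.ofReal (‖a n‖ ^ p) := by
  rw [powSum_eq_tsum (isCompact_diag e s a) e (diag_orth e s a) hp, tsum_eq_sum (s := s)]
  · apply Finset.sum_congr rfl
    intro n hn
    rw [diag_basis, if_pos hn, norm_smul, e.orthonormal.1 n, mul_one]
  · intro n hn
    rw [diag_basis, if_neg hn, norm_zero, Real.zero_rpow hp.ne', ENNReal.ofReal_zero]

theorem norm_diag_le {s : Finset ℕ} {a : ℕ → ℂ} (ha : ∀ n ∈ s, ‖a n‖ = 1) : ‖diag e s a‖ ≤ 1 := by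
  apply ContinuousLinearMap.opNorm_le_bound _ zero_le_one
  intro x
  rw [one_mul]
  have h1 := hasSum_norm_apply_sq e (diag_orth e s a) x
  have h2 := hasSum_norm_sq e x
  have : ‖diag e s a x‖ ^ 2 ≤ ‖x‖ ^ 2 := by
    refine hasSum_le ?_ h1 h2
    intro k
    rw [diag_basis]
    split_ifs with h
    · rw [norm_smul, e.orthonormal.1 k, ha k h]; simp
    · simp
  exact le_of_sq_le_sq this (norm_nonneg _)

theorem nrm_diag {q : ℝ≥0∞} (hq : 0 < q) {s : Finset ℕ} (hs : s.Nonempty) {a : ℕ → ℂ}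
    (ha : ∀ n ∈ s, ‖a n‖ = 1) : nrm q (diag e s a) = (s.card : ℝ≥0∞) ^ (q.toReal)⁻¹ := by
  by_cases htop : q = ⊤
  · subst htop
    rw [nrm_top]
    have h1 : (s.card : ℝ≥0∞) ^ ((⊤ : ℝ≥0∞).toReal)⁻¹ = 1 := by simp
    rw [h1]
    obtain ⟨k, hk⟩ := hs
    have h2 : ‖diag e s a‖ = 1 := by
      apply le_antisymm (norm_diag_le e ha)
      have := (diag e s a).le_opNorm (e k)
      rwa [diag_basis, if_pos hk, norm_smul, e.orthonormal.1 k, ha k hk, mul_one, mul_one] at this
    rw [h2, ENNReal.ofReal_one]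
  · have hq' : 0 < q.toReal := ENNReal.toReal_pos hq.ne' htop
    rw [nrm_of_ne_top htop, powSum_diag e hq']
    congr 1
    rw [Finset.sum_congr rfl (g := fun _ => (1 : ℝ≥0∞))]
    · simp
    · intro n hn
      rw [ha n hn, Real.one_rpow, ENNReal.ofReal_one]

theorem diag_supp (s : Finset ℕ) (a : ℕ → ℂ) :
    diag e s a = proj e s * diag e s a * proj e s := by
  have hl : ∀ n ∈ s, proj e s * proj e {n} * proj e s = proj e {n} := by
    intro n hn
    rw [proj_mul, proj_mul, Finset.inter_singleton_of_mem hn, Finset.singleton_inter_of_mem hn]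
  unfold diag
  rw [Finset.mul_sum, Finset.sum_mul]
  apply Finset.sum_congr rfl
  intro n hn
  rw [mul_smul_comm, smul_mul_assoc, hl n hn]

end Pool.Agent.Schatten
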