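import Pool.Agent.Schatten.Defs

/-!
Multiplicities of the eigenvalues of `|T| = (T* T)^{1/2}` and eigenbases of `T* T`
for a compact operator `T` on a complex Hilbert space.
-/

open scoped ENNReal InnerProductSpace
open Module.End

namespace Pool.Agent.Schatten

universe u v

variable {H : Type u} [NormedAddCommGroup H] [InnerProductSpace ℂ H] [CompleteSpace H]

/-- For `0 < s`, the `s`-eigenspace of `|T|` is the `s ^ 2`-eigenspace of `T* T`. -/
theorem mem_eigenspace_abs_iff (T : H →L[ℂ] H) {s : ℝ} (hs : 0 < s) (x : H) :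
    x ∈ eigenspace (CFC.abs T : H →L[ℂ] H).toLinearMap (s : ℂ) ↔
      (star T * T) x = ((s : ℂ) ^ 2) • x := by
  set A : H →L[ℂ] H := CFC.abs T with hA
  have hAA : A * A = star T * T := CFC.abs_mul_abs T
  have hpos : A.IsPositive := by
    rw [← ContinuousLinearMap.nonneg_iff_isPositive]
    exact CFC.abs_nonneg T
  rw [mem_eigenspace_iff]
  constructor
  · intro h
    have h' : A x = (s : ℂ) • x := h
    rw [← hAA, mul_apply_eq_comp, h', map_smul, h', smul_smul, sq]
  · intro h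
    have h' : A (A x) = ((s : ℂ) ^ 2) • x := by
      rw [← h, ← hAA, mul_apply_eq_comp]
    set y : H := A x - (s : ℂ) • x with hy
    have hAy : A y = -((s : ℂ) • y) := by
      rw [hy, map_sub, map_smul, h', smul_sub, smul_smul, sq]
      abel
    have h1 : 0 ≤ RCLike.re ⟪A y, y⟫_ℂ := hpos.re_inner_nonneg_left y
    rw [hAy, inner_neg_left, inner_smul_left, Complex.conj_ofReal, inner_self_eq_norm_sq_to_K] at h1
    have h2 : RCLike.re (-((s : ℂ) * ((‖y‖ : ℂ)) ^ 2)) = -(s * ‖y‖ ^ 2) := by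
      rw [← Complex.ofReal_pow, ← Complex.ofReal_mul, ← Complex.ofReal_neg]
      exact Complex.ofReal_re _
    have h3 : s * ‖y‖ ^ 2 ≤ 0 := by
      have := h1
      erw [h2] at this
      linarith
    have h4 : ‖y‖ ^ 2 ≤ 0 := by
      by_contra hcon
      push Not at hcon
      have := mul_pos hs hcon
      linarith
    have h5 : y = 0 := by
      have : ‖y‖ = 0 := by nlinarith [norm_nonneg y]
      exact norm_eq_zero.mp this
    have : A x = (s : ℂ) • x := by
      rw [hy] at h5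
      exact sub_eq_zero.mp h5
    exact this

theorem gram_inner (T : H →L[ℂ] H) (x y : H) : ⟪x, (star T * T) y⟫_ℂ = ⟪T x, T y⟫_ℂ := by
  rw [mul_apply_eq_comp, ContinuousLinearMap.star_eq_adjoint, ContinuousLinearMap.adjoint_inner_right]

theorem gram_symm (T : H →L[ℂ] H) : (star T * T : H →L[ℂ] H).toLinearMap.IsSymmetric := by
  intro x y
  show ⟪(star T * T) x, y⟫_ℂ = ⟪x, (star T * T) y⟫_ℂ
  rw [gram_inner, ← inner_conj_symm, gram_inner, inner_conj_symm]

theorem gram_compact {T : H →L[ℂ] H} (hT : IsCompactOperator T) :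
    IsCompactOperator (star T * T : H →L[ℂ] H) :=
  hT.clm_comp (star T)

/-- For a compact operator `T` there is a Hilbert basis whose image under `T` is an
orthogonal family. -/
theorem exists_eigenbasis {T : H →L[ℂ] H} (hT : IsCompactOperator T) :
    ∃ (κ : Type u) (b : HilbertBasis κ ℂ H), ∀ k l, k ≠ l → ⟪T (b k), T (b l)⟫_ℂ = 0 := by
  set G : H →L[ℂ] H := star T * T with hG
  have hsymm : (G : H →ₗ[ℂ] H).IsSymmetric := gram_symm T
  have hcomp : IsCompactOperator G := gram_compact hT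
  have hclosed : ∀ μ : ℂ, IsClosed ((eigenspace (G : H →ₗ[ℂ] H) μ : Submodule ℂ H) : Set H) := by
    intro μ
    have : ((eigenspace (G : H →ₗ[ℂ] H) μ : Submodule ℂ H) : Set H) = {x | G x = μ • x} := by
      ext x
      simp
    rw [this]
    exact isClosed_eq G.continuous (continuous_const_smul μ)
  have hcs : ∀ μ : ℂ, CompleteSpace (eigenspace (G : H →ₗ[ℂ] H) μ) :=
    fun μ => (hclosed μ).completeSpace_coe
  have hfam := hsymm.orthogonalFamily_eigenspaces
  choose w b hb using fun μ : ℂ => exists_hilbertBasis ℂ (eigenspace (G : H →ₗ[ℂ] H) μ)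
  have hon : Orthonormal ℂ (fun a : Σ μ : ℂ, w μ =>
      ((eigenspace (G : H →ₗ[ℂ] H) a.1).subtypeₗᵢ) (b a.1 a.2)) :=
    hfam.orthonormal_sigma_orthonormal (fun μ => (b μ).orthonormal)
  set v : (Σ μ : ℂ, w μ) → H := fun a => ((b a.1 a.2 : eigenspace (G : H →ₗ[ℂ] H) a.1) : H) with hv
  have hon' : Orthonormal ℂ v := hon
  have hbot : (Submodule.span ℂ (Set.range v))ᗮ = ⊥ := by
    rw [eq_bot_iff, ← ContinuousLinearMap.orthogonalComplement_iSup_eigenspaces_eq_bot hcomp hsymm]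
    intro x hx
    rw [Submodule.mem_orthogonal] at hx ⊢
    suffices h : ∀ μ : ℂ, ∀ y ∈ eigenspace (G : H →ₗ[ℂ] H) μ, ⟪y, x⟫_ℂ = 0 by
      have hle : (⨆ μ, eigenspace (G : H →ₗ[ℂ] H) μ) ≤ (Submodule.span ℂ {x})ᗮ := by
        apply iSup_le
        intro μ y hy
        rw [Submodule.mem_orthogonal_singleton_iff_inner_left]
        exact h μ y hy
      intro u hu
      have := hle hu
      rwa [Submodule.mem_orthogonal_singleton_iff_inner_left] at this
    intro μ y hy
    have h1 := (b μ).hasSum_repr ⟨y, hy⟩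
    have h2 : HasSum (fun i => (((b μ).repr ⟨y, hy⟩ i) • ((b μ i : eigenspace (G : H →ₗ[ℂ] H) μ) : H)))
        y := by
      have := h1.mapL (eigenspace (G : H →ₗ[ℂ] H) μ).subtypeL
      simpa using this
    have h3 := h2.mapL (innerSL ℂ x)
    have h4 : ∀ i, (innerSL ℂ x) (((b μ).repr ⟨y, hy⟩ i) • ((b μ i : eigenspace (G : H →ₗ[ℂ] H) μ) : H)) = 0 := by
      intro i
      rw [map_smul, innerSL_apply_apply]
      have : ⟪x, ((b μ i : eigenspace (G : H →ₗ[ℂ] H) μ) : H)⟫_ℂ = 0 := by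
        have := hx (v ⟨μ, i⟩) (Submodule.subset_span ⟨⟨μ, i⟩, rfl⟩)
        rw [← inner_conj_symm]
        rw [hv] at this
        simp only at this
        rw [this]
        simp
      rw [this, smul_zero]
    have h5 : (innerSL ℂ x) y = 0 := by
      refine h3.unique ?_
      simp only [h4]
      exact hasSum_zero
    rw [innerSL_apply_apply] at h5
    rw [← inner_conj_symm, h5]
    simp
  refine ⟨_, HilbertBasis.mkOfOrthogonalEqBot hon' hbot, ?_⟩
  intro k l hkl
  rw [HilbertBasis.coe_mkOfOrthogonalEqBot]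
  rw [← gram_inner, ← hG]
  have hl : G (v l) = l.1 • v l := by
    have := (b l.1 l.2).2
    rw [mem_eigenspace_iff] at this
    exact this
  rw [hl, inner_smul_right, hon'.inner_eq_zero hkl, mul_zero]

theorem gram_apply_basis {T : H →L[ℂ] H} {κ : Type v} (b : HilbertBasis κ ℂ H)
    (hb : ∀ k l, k ≠ l → ⟪T (b k), T (b l)⟫_ℂ = 0) (k : κ) :
    (star T * T) (b k) = ((‖T (b k)‖ : ℂ) ^ 2) • b k := by
  classical
  apply b.repr.injective
  ext l
  rw [b.repr_apply_apply, gram_inner, map_smul, lp.coeFn_smul, Pi.smul_apply, b.repr_apply_apply]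
  by_cases h : l = k
  · subst h
    rw [inner_self_eq_norm_sq_to_K, inner_self_eq_norm_sq_to_K, b.orthonormal.1 l]
    simp
  · rw [hb l k h, b.orthonormal.inner_eq_zero h]
    simp

theorem eigen_coeff_zero {T : H →L[ℂ] H} {κ : Type v} (b : HilbertBasis κ ℂ H)
    (hb : ∀ k l, k ≠ l → ⟪T (b k), T (b l)⟫_ℂ = 0) {s : ℝ} (hs : 0 < s) {x : H}
    (hx : (star T * T) x = ((s : ℂ) ^ 2) • x) {k : κ} (hk : ‖T (b k)‖ ≠ s) : ⟪b k, x⟫_ℂ = 0 := by
  have h1 : ⟪b k, (star T * T) x⟫_ℂ = ((s : ℂ) ^ 2) * ⟪b k, x⟫_ℂ := by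
    rw [hx, inner_smul_right]
  have h2 : ⟪b k, (star T * T) x⟫_ℂ = ((‖T (b k)‖ : ℂ) ^ 2) * ⟪b k, x⟫_ℂ := by
    have h0 : ⟪(star T * T) (b k), x⟫_ℂ = ⟪b k, (star T * T) x⟫_ℂ := (gram_symm T) (b k) x
    rw [← h0, gram_apply_basis b hb k, inner_smul_left, map_pow, Complex.conj_ofReal]
  have h3 : (((s : ℂ) ^ 2) - ((‖T (b k)‖ : ℂ) ^ 2)) * ⟪b k, x⟫_ℂ = 0 := by
    rw [sub_mul, ← h1, ← h2, sub_self]
  rcases mul_eq_zero.mp h3 with h | h
  · exfalso
    apply hk
    have h4 : s ^ 2 = ‖T (b k)‖ ^ 2 := by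
      have := sub_eq_zero.mp h
      exact_mod_cast this
    have := (pow_left_inj₀ hs.le (norm_nonneg _) (two_ne_zero)).mp h4
    exact this.symm
  · exact h

/-- For a compact operator `T` and a Hilbert basis `b` with `T b` orthogonal, the multiplicity of
`s > 0` as an eigenvalue of `|T|` is the number of basis vectors with `‖T (b k)‖ = s`. -/
theorem absMult_eq_card {T : H →L[ℂ] H} (hT : IsCompactOperator T) {κ : Type v}
    (b : HilbertBasis κ ℂ H)
    (hb : ∀ k l, k ≠ l → ⟪T (b k), T (b l)⟫_ℂ = 0) {s : ℝ} (hs : 0 < s) :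
    Finite {k // ‖T (b k)‖ = s} ∧ absMult T s = Nat.card {k // ‖T (b k)‖ = s} := by
  classical
  have hE : ∀ x, x ∈ eigenspace (CFC.abs T : H →L[ℂ] H).toLinearMap (s : ℂ) ↔
      (star T * T) x = ((s : ℂ) ^ 2) • x := mem_eigenspace_abs_iff T hs
  set E := eigenspace (CFC.abs T : H →L[ℂ] H).toLinearMap (s : ℂ) with hEdef
  have hEG : E = eigenspace (star T * T : H →L[ℂ] H).toLinearMap ((s : ℂ) ^ 2) := by
    ext x
    rw [hE, mem_eigenspace_iff]
    rfl
  have hfd : FiniteDimensional ℂ E := by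
    rw [hEG]
    apply ContinuousLinearMap.finite_dimensional_eigenspace (gram_compact hT)
    exact pow_ne_zero 2 (by exact_mod_cast hs.ne')
  set K := {k // ‖T (b k)‖ = s} with hK
  have hmem : ∀ k : K, b k.1 ∈ E := by
    intro k
    rw [hE, gram_apply_basis b hb, k.2]
  set f : K → E := fun k => ⟨b k.1, hmem k⟩ with hf
  have hli : LinearIndependent ℂ f := by
    have h1 : LinearIndependent ℂ (fun k : K => b k.1) :=
      b.orthonormal.linearIndependent.comp _ Subtype.val_injective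
    have h2 : LinearIndependent ℂ (E.subtype ∘ f) := h1
    exact LinearIndependent.of_comp _ h2
  have hfin : Finite K := hli.finite
  refine ⟨hfin, ?_⟩
  have : Fintype K := Fintype.ofFinite K
  have hspan : Submodule.span ℂ (Set.range f) = ⊤ := by
    rw [eq_top_iff]
    rintro ⟨x, hx⟩ -
    have hx' := (hE x).mp hx
    have h1 := b.hasSum_repr x
    have h2 : HasSum (fun k => (b.repr x k) • b k) (∑ k : K, (b.repr x k.1) • b k.1) := by
      have h3 : HasSum (fun k : K => (b.repr x k.1) • b k.1) (∑ k : K, (b.repr x k.1) • b k.1) :=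
        hasSum_fintype _
      refine (Function.Injective.hasSum_iff Subtype.val_injective ?_).mp h3
      intro k hk
      have : ‖T (b k)‖ ≠ s := by
        intro h
        exact hk ⟨⟨k, h⟩, rfl⟩
      rw [b.repr_apply_apply, eigen_coeff_zero b hb hs hx' this, zero_smul]
    have h3 : x = ∑ k : K, (b.repr x k.1) • b k.1 := h1.unique h2
    have h4 : (⟨x, hx⟩ : E) = ∑ k : K, (b.repr x k.1) • f k := by
      apply Subtype.ext
      rw [Submodule.coe_sum]
      simp only [Submodule.coe_smul]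
      exact h3
    rw [h4]
    exact Submodule.sum_mem _ (fun k _ => Submodule.smul_mem _ _ (Submodule.subset_span ⟨k, rfl⟩))
  have h5 := finrank_span_eq_card hli
  rw [hspan, finrank_top] at h5
  rw [absMult, ← hEdef, h5, Nat.card_eq_fintype_card]

theorem powSum_eq_tsum {T : H →L[ℂ] H} (hT : IsCompactOperator T) {κ : Type v}
    (b : HilbertBasis κ ℂ H)
    (hb : ∀ k l, k ≠ l → ⟪T (b k), T (b l)⟫_ℂ = 0) {p : ℝ} (hp : 0 < p) :
    powSum p T = ∑' k, ENNReal.ofReal (‖T (b k)‖ ^ p) := by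
  classical
  have h1 : ∑' k, ENNReal.ofReal (‖T (b k)‖ ^ p) =
      ∑' s : ℝ, ∑' k : {k // ‖T (b k)‖ = s}, ENNReal.ofReal (‖T (b k.1)‖ ^ p) := by
    rw [← (Equiv.sigmaFiberEquiv (fun k => ‖T (b k)‖)).tsum_eq]
    rw [ENNReal.tsum_sigma']
    rfl
  have h2 : ∀ s : ℝ, ∑' k : {k // ‖T (b k)‖ = s}, ENNReal.ofReal (‖T (b k.1)‖ ^ p) =
      Set.indicator (Set.Ioi (0:ℝ)) (fun s => (absMult T s : ℝ≥0∞) * ENNReal.ofReal (s ^ p)) s := by
    intro s
    have h3 : ∑' k : {k // ‖T (b k)‖ = s}, ENNReal.ofReal (‖T (b k.1)‖ ^ p) =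
        ∑' k : {k // ‖T (b k)‖ = s}, ENNReal.ofReal (s ^ p) := by
      congr 1
      ext k
      rw [k.2]
    rw [h3]
    by_cases hs : 0 < s
    · obtain ⟨hfin, hcard⟩ := absMult_eq_card hT b hb hs
      rw [Set.indicator_of_mem (by exact hs), hcard, ENNReal.tsum_const]
      congr 1
      rw [ENat.card_eq_coe_natCard]
      simp
    · rw [Set.indicator_of_notMem (by exact hs)]
      rw [ENNReal.tsum_eq_zero]
      intro k
      have hs0 : s = 0 := by
        have : 0 ≤ s := by rw [← k.2]; exact norm_nonneg _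
        linarith [not_lt.mp hs]
      rw [hs0, Real.zero_rpow hp.ne', ENNReal.ofReal_zero]
  rw [h1, powSum, tsum_congr h2, tsum_subtype (Set.Ioi (0:ℝ))
    (fun s => (absMult T s : ℝ≥0∞) * ENNReal.ofReal (s ^ p))]

end Pool.Agent.Schatten
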