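import Pool.Agent.Schatten.Core

/-!
The gliding hump argument, and the non-existence of linear isometries for `q ≠ 2`, `p ≠ q`.
-/

open scoped ENNReal InnerProductSpace Topology
open Module.End MeasureTheory Filter

namespace Pool.Agent.Schatten

universe u v

variable {H : Type u} [NormedAddCommGroup H] [InnerProductSpace ℂ H] [CompleteSpace H]
variable (e : HilbertBasis ℕ ℂ H)

theorem exists_eps {D δ : ℝ≥0∞} (hD : D ≠ ⊤) (hδ : δ ≠ 0) :
    ∃ ε : ℝ, 0 < ε ∧ D * ENNReal.ofReal ε ≤ δ := by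
  have h1 : Tendsto (fun ε : ℝ => D * ENNReal.ofReal ε) (𝓝[>] 0) (𝓝 (D * ENNReal.ofReal 0)) := by
    apply ENNReal.Tendsto.const_mul
    · exact (ENNReal.continuous_ofReal.tendsto 0).mono_left nhdsWithin_le_nhds
    · exact Or.inr hD
  rw [ENNReal.ofReal_zero, mul_zero] at h1
  obtain ⟨ε, hε1, hε2⟩ := ((h1.eventually (gt_mem_nhds (pos_iff_ne_zero.mpr hδ))).and
    self_mem_nhdsWithin).exists
  exact ⟨ε, hε2, hε1.le⟩

theorem norm_mul_proj_le {G : H →L[ℂ] H} {m : ℕ} {ε : ℝ} (hε : 0 ≤ ε)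
    (h : ∀ i < m, ‖G (e i)‖ ≤ ε) : ‖G * proj e (Finset.range m)‖ ≤ m * ε := by
  apply ContinuousLinearMap.opNorm_le_bound _ (by positivity)
  intro x
  rw [mul_apply_eq_comp, proj_apply, map_sum]
  refine (norm_sum_le _ _).trans ?_
  calc ∑ i ∈ Finset.range m, ‖G (⟪e i, x⟫_ℂ • e i)‖ ≤ ∑ i ∈ Finset.range m, ‖x‖ * ε := by
        apply Finset.sum_le_sum
        intro i hi
        rw [map_smul, norm_smul]
        have h1 : ‖⟪e i, x⟫_ℂ‖ ≤ ‖x‖ := by
          refine (norm_inner_le_norm _ _).trans ?_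
          rw [e.orthonormal.1, one_mul]
        have h2 := h i (Finset.mem_range.mp hi)
        gcongr
    _ = m * ε * ‖x‖ := by rw [Finset.sum_const, Finset.card_range, nsmul_eq_mul]; ring

theorem norm_proj_mul_le {G : H →L[ℂ] H} {m : ℕ} {ε : ℝ} (hε : 0 ≤ ε)
    (h : ∀ i < m, ‖(star G) (e i)‖ ≤ ε) : ‖proj e (Finset.range m) * G‖ ≤ m * ε := by
  have h1 := norm_mul_proj_le e hε h
  rw [← norm_star, star_mul, star_star, star_proj] at h1
  exact h1

theorem codim_mul_proj (G : H →L[ℂ] H) (m : ℕ) : Codim (G * proj e (Finset.range m)) 0 m := by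
  refine ⟨fun i => (innerSL ℂ (e i)).toLinearMap, fun x hx => ?_⟩
  have h1 : proj e (Finset.range m) x = 0 := by
    rw [proj_apply]
    apply Finset.sum_eq_zero
    intro i hi
    have := hx ⟨i, Finset.mem_range.mp hi⟩
    have h2 : ⟪e i, x⟫_ℂ = 0 := this
    rw [h2, zero_smul]
  rw [mul_apply_eq_comp, h1, map_zero, norm_zero, zero_mul]

theorem codim_proj_mul (G : H →L[ℂ] H) (m : ℕ) : Codim (proj e (Finset.range m) * G) 0 m := by
  refine ⟨fun i => ((innerSL ℂ (e i)).toLinearMap).comp (G : H →ₗ[ℂ] H), fun x hx => ?_⟩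
  have h1 : proj e (Finset.range m) (G x) = 0 := by
    rw [proj_apply]
    apply Finset.sum_eq_zero
    intro i hi
    have := hx ⟨i, Finset.mem_range.mp hi⟩
    have h2 : ⟪e i, G x⟫_ℂ = 0 := this
    rw [h2, zero_smul]
  rw [mul_apply_eq_comp, h1, norm_zero, zero_mul]

theorem proj_sdiff {m m' : ℕ} (h : m ≤ m') :
    proj e (Finset.range m' \ Finset.range m) =
      proj e (Finset.range m') - proj e (Finset.range m) := by
  unfold proj
  rw [eq_sub_iff_add_eq]
  exact Finset.sum_sdiff (Finset.range_subset_range.mpr h)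

theorem sizeK_smul (K : ℕ) (c : ℂ) (G : H →L[ℂ] H) :
    sizeK e K (c • G) = ‖c‖ ^ 2 * sizeK e K G := by
  unfold sizeK
  rw [Finset.mul_sum]
  apply Finset.sum_congr rfl
  intro i _
  rw [star_smul, smul_apply, smul_apply, norm_smul, norm_smul]
  have : ‖star c‖ = ‖c‖ := norm_star c
  rw [this]
  ring

variable {p q : ℝ≥0∞} {hp : 0 < p} {hq : 0 < q}

theorem exists_hump (J : schattenClass H q hq →ₗ[ℂ] schattenClass H p hp)
    (hJ : ∀ T, nrm p (J T : H →L[ℂ] H) = nrm q (T : H →L[ℂ] H)) (hq2 : (q.toReal)⁻¹ ≠ 1 / 2)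
    (m L : ℕ) {δ : ℝ≥0∞} (hδ : δ ≠ 0) :
    ∃ (d : schattenClass H q hq) (s : Finset ℕ) (m' : ℕ), (∀ n ∈ s, L ≤ n) ∧
      (d : H →L[ℂ] H) = proj e s * (d : H →L[ℂ] H) * proj e s ∧ nrm q (d : H →L[ℂ] H) = 1 ∧
      nrm p ((J d : H →L[ℂ] H) - proj e (Finset.range m' \ Finset.range m) * (J d : H →L[ℂ] H) *
        proj e (Finset.range m' \ Finset.range m)) ≤ δ := by
  set C := qconst p with hC
  have hCtop : C ≠ ⊤ := qconst_ne_top p
  set D : ℝ≥0∞ := C * (C * (2 * (((m : ℝ≥0∞) + 1) ^ (p.toReal)⁻¹ * m))) with hD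
  have hDtop : D ≠ ⊤ := by
    rw [hD]
    refine ENNReal.mul_ne_top hCtop (ENNReal.mul_ne_top hCtop (ENNReal.mul_ne_top (by simp)
      (ENNReal.mul_ne_top ?_ (by simp))))
    exact ENNReal.rpow_ne_top_of_nonneg (by positivity) (by simp)
  have hδ2 : δ / 2 ≠ 0 := by simp [hδ]
  obtain ⟨ε, hε, hDε⟩ := exists_eps hDtop hδ2
  obtain ⟨s, a, hs, ha, hsL, hsize⟩ := exists_far e J hJ hq2 m L hε
  set θ : ℝ := (q.toReal)⁻¹ with hθ
  have hcard : (0 : ℝ) < (s.card : ℝ) := by exact_mod_cast Finset.card_pos.mpr hs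
  have hcθ : (0 : ℝ) < (s.card : ℝ) ^ θ := Real.rpow_pos_of_pos hcard θ
  set κ : ℂ := (((((s.card : ℝ) ^ θ)⁻¹ : ℝ)) : ℂ) with hκ
  have hκn : ‖κ‖ = ((s.card : ℝ) ^ θ)⁻¹ := by
    rw [hκ, Complex.norm_real, Real.norm_of_nonneg (by positivity)]
  set d : schattenClass H q hq := κ • ⟨diag e s a, diag_mem e hq s a⟩ with hd
  have hdcoe : (d : H →L[ℂ] H) = κ • diag e s a := rfl
  set z : H →L[ℂ] H := (J d : H →L[ℂ] H) with hz
  have hzeq : z = κ • ∑ n ∈ s, a n • img e J n := by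
    rw [hz, hd, map_smul, Submodule.coe_smul, J_diag]
  have hzsize : sizeK e m z ≤ ε ^ 2 := by
    rw [hzeq, sizeK_smul, hκn]
    calc (((s.card : ℝ) ^ θ)⁻¹) ^ 2 * sizeK e m (∑ n ∈ s, a n • img e J n)
        ≤ (((s.card : ℝ) ^ θ)⁻¹) ^ 2 * (ε * (s.card : ℝ) ^ θ) ^ 2 := by gcongr
      _ = ε ^ 2 := by field_simp
  have hz1 : ∀ i < m, ‖z (e i)‖ ≤ ε := fun i hi =>
    le_of_sq_le_sq ((le_sizeK e z hi).1.trans hzsize) hε.le
  have hz2 : ∀ i < m, ‖(star z) (e i)‖ ≤ ε := fun i hi =>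
    le_of_sq_le_sq ((le_sizeK e z hi).2.trans hzsize) hε.le
  have hzcomp : IsCompactOperator z := compact_of_mem (J d)
  have hznrm : nrm q (d : H →L[ℂ] H) = 1 := by
    rw [hdcoe, nrm_smul hq (isCompact_diag e s a), nrm_diag e hq hs ha, hκn]
    rw [← ENNReal.ofReal_natCast, ENNReal.ofReal_rpow_of_nonneg (by positivity) (by positivity),
      ← ENNReal.ofReal_mul (by positivity), inv_mul_cancel₀ hcθ.ne', ENNReal.ofReal_one]
  have hzfin : nrm p z ≠ ⊤ := by
    rw [hz, hJ, hznrm]; simp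
  have htend := ENNReal.Tendsto.const_mul (a := C) (tendsto_nrm_compress e hp hzcomp hzfin)
    (Or.inr hCtop)
  rw [mul_zero] at htend
  obtain ⟨m', hm'1, hm'2⟩ := ((eventually_ge_atTop m).and
    (htend.eventually (gt_mem_nhds (pos_iff_ne_zero.mpr hδ2)))).exists
  refine ⟨d, s, m', hsL, ?_, hznrm, ?_⟩
  · rw [hdcoe, mul_smul_comm, smul_mul_assoc, ← diag_supp]
  · set P := proj e (Finset.range m) with hP
    set P' := proj e (Finset.range m') with hP'
    set R := proj e (Finset.range m' \ Finset.range m) with hR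
    have hReq : R = P' - P := proj_sdiff e hm'1
    have hPP' : P * P' = P := by
      rw [hP, hP', proj_mul, Finset.inter_eq_left.mpr (Finset.range_subset_range.mpr hm'1)]
    have hP'P : P' * P = P := by
      rw [hP, hP', proj_mul, Finset.inter_eq_right.mpr (Finset.range_subset_range.mpr hm'1)]
    have e1 : z - R * z * R = (z - P' * z * P') + ((P * z) * P' + R * (z * P)) := by
      rw [hReq]
      noncomm_ring
    have hcPz : IsCompactOperator (P * z : H →L[ℂ] H) := hzcomp.clm_comp P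
    have hczP : IsCompactOperator (z * P : H →L[ℂ] H) := hzcomp.comp_clm P
    have hc1 : IsCompactOperator (z - P' * z * P' : H →L[ℂ] H) := hzcomp.sub (isCompact_mul hzcomp _ _)
    have hc2 : IsCompactOperator ((P * z) * P' : H →L[ℂ] H) := hcPz.comp_clm P'
    have hc3 : IsCompactOperator (R * (z * P) : H →L[ℂ] H) := hczP.clm_comp R
    have hW1 : nrm p ((P * z) * P') ≤ ((m : ℝ≥0∞) + 1) ^ (p.toReal)⁻¹ * (m * ENNReal.ofReal ε) := by
      have h1 : nrm p ((P * z) * P') ≤ nrm p (P * z) := by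
        have := nrm_mul_le hp hcPz (A := 1) (B := P') ContinuousLinearMap.norm_id_le
          (norm_proj_le e _)
        rwa [one_mul] at this
      refine h1.trans ((nrm_le_of_codim hp hcPz (codim_proj_mul e z m)).trans ?_)
      gcongr
      rw [← ENNReal.ofReal_natCast, ← ENNReal.ofReal_mul (by positivity)]
      exact ENNReal.ofReal_le_ofReal (norm_proj_mul_le e hε.le hz2)
    have hW2 : nrm p (R * (z * P)) ≤ ((m : ℝ≥0∞) + 1) ^ (p.toReal)⁻¹ * (m * ENNReal.ofReal ε) := by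
      have h1 : nrm p (R * (z * P)) ≤ nrm p (z * P) := by
        have := nrm_mul_le hp hczP (A := R) (B := 1) (norm_proj_le e _)
          ContinuousLinearMap.norm_id_le
        rwa [mul_one] at this
      refine h1.trans ((nrm_le_of_codim hp hczP (codim_mul_proj e z m)).trans ?_)
      gcongr
      rw [← ENNReal.ofReal_natCast, ← ENNReal.ofReal_mul (by positivity)]
      exact ENNReal.ofReal_le_ofReal (norm_mul_proj_le e hε.le hz1)
    rw [e1]
    calc nrm p ((z - P' * z * P') + ((P * z) * P' + R * (z * P)))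
        ≤ C * (nrm p (z - P' * z * P') + nrm p ((P * z) * P' + R * (z * P))) :=
          nrm_add_le hp hc1 (hc2.add hc3)
      _ ≤ C * (nrm p (z - P' * z * P') + C * (nrm p ((P * z) * P') + nrm p (R * (z * P)))) := by
          gcongr
          exact nrm_add_le hp hc2 hc3
      _ ≤ C * (nrm p (z - P' * z * P') +
          C * (((m : ℝ≥0∞) + 1) ^ (p.toReal)⁻¹ * (m * ENNReal.ofReal ε) +
            ((m : ℝ≥0∞) + 1) ^ (p.toReal)⁻¹ * (m * ENNReal.ofReal ε))) := by gcongr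
      _ = C * nrm p (z - P' * z * P') + D * ENNReal.ofReal ε := by
          rw [hD]; ring
      _ ≤ δ / 2 + δ / 2 := add_le_add hm'2.le hDε
      _ = δ := ENNReal.add_halves δ

end Pool.Agent.Schatten
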