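import Pool.Agent.Schatten.Hump

/-!
There is no linear isometry `S_q → S_p` for `q ≠ 2`, `p ≠ q`.
-/

open scoped ENNReal InnerProductSpace Topology
open Module.End MeasureTheory Filter

namespace Pool.Agent.Schatten

universe u v

variable {H : Type u} [NormedAddCommGroup H] [InnerProductSpace ℂ H] [CompleteSpace H]
variable (e : HilbertBasis ℕ ℂ H)
variable {p q : ℝ≥0∞} {hp : 0 < p} {hq : 0 < q}

/-- The lower bound on the block norms. -/
noncomputable def lowc (p : ℝ≥0∞) : ℝ≥0∞ := (qconst p)⁻¹ / 2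

theorem lowc_ne_zero (p : ℝ≥0∞) : lowc p ≠ 0 := by
  unfold lowc
  have := qconst_ne_top p
  simp [this]

theorem exists_blocks (J : schattenClass H q hq →ₗ[ℂ] schattenClass H p hp)
    (hJ : ∀ T, nrm p (J T : H →L[ℂ] H) = nrm q (T : H →L[ℂ] H)) (hq2 : (q.toReal)⁻¹ ≠ 1 / 2)
    (k : ℕ) : ∀ δ : ℝ≥0∞, δ ≠ 0 → ∃ (D : schattenClass H q hq) (A : Finset ℕ) (B : H →L[ℂ] H)
      (A' : Finset ℕ), BlockSum e q 1 k (D : H →L[ℂ] H) A ∧ BlockSum e p (lowc p) k B A' ∧
      nrm p ((J D : H →L[ℂ] H) - B) ≤ δ := by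
  induction k with
  | zero =>
    intro δ _
    refine ⟨0, ∅, 0, ∅, ?_, BlockSum.zero, ?_⟩
    · have : ((0 : schattenClass H q hq) : H →L[ℂ] H) = 0 := rfl
      rw [this]
      exact BlockSum.zero
    · have : ((J 0 : schattenClass H p hp) : H →L[ℂ] H) - 0 = 0 := by
        rw [map_zero, sub_zero]; rfl
      rw [this, nrm_zero hp]
      exact zero_le
  | succ k ih =>
    intro δ hδ
    set C := qconst p with hC
    have hCtop : C ≠ ⊤ := qconst_ne_top p
    have hC1 : 1 ≤ C := one_le_qconst p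
    have hC0 : C ≠ 0 := fun h => by rw [h] at hC1; simp at hC1
    set δ1 : ℝ≥0∞ := C⁻¹ * (δ / 2) with hδ1
    have hCinv0 : C⁻¹ ≠ 0 := ENNReal.inv_ne_zero.mpr hCtop
    have hδ1' : δ1 ≠ 0 := by
      rw [hδ1]
      exact mul_ne_zero hCinv0 (by simp [hδ])
    obtain ⟨D, A, B, A', hD, hB, hle⟩ := ih δ1 hδ1'
    set δ2 : ℝ≥0∞ := min δ1 (lowc p) with hδ2
    have hδ2' : δ2 ≠ 0 := by
      rw [hδ2]
      intro h
      rcases min_eq_iff.mp h with h | h
      · exact hδ1' h.1
      · exact lowc_ne_zero p h.1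
    obtain ⟨d, s, m', hsL, hdsupp, hd1, hdle⟩ :=
      exists_hump e J hJ hq2 (A'.sup id + 1) (A.sup id + 1) hδ2'
    set R := proj e (Finset.range m' \ Finset.range (A'.sup id + 1)) with hR
    set b : H →L[ℂ] H := R * (J d : H →L[ℂ] H) * R with hb
    have hzc : IsCompactOperator (J d : H →L[ℂ] H) := compact_of_mem (J d)
    have hbc : IsCompactOperator b := isCompact_mul hzc _ _
    have hznrm : nrm p (J d : H →L[ℂ] H) = 1 := by rw [hJ, hd1]
    have hRR : R * R = R := by rw [hR, proj_mul, Finset.inter_self]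
    have hbsupp : b = R * b * R := by
      rw [hb]
      calc R * (J d : H →L[ℂ] H) * R = (R * R) * (J d : H →L[ℂ] H) * (R * R) := by rw [hRR]
        _ = R * (R * (J d : H →L[ℂ] H) * R) * R := by noncomm_ring
    have hb1 : nrm p b ≤ 1 := by
      rw [← hznrm]
      exact nrm_mul_le hp hzc (norm_proj_le e _) (norm_proj_le e _)
    have hzb : IsCompactOperator ((J d : H →L[ℂ] H) - b : H →L[ℂ] H) := hzc.sub hbc
    have hbc' : lowc p ≤ nrm p b := by
      have h1 : (1 : ℝ≥0∞) ≤ C * (nrm p ((J d : H →L[ℂ] H) - b) + nrm p b) := by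
        have := nrm_add_le hp hzb hbc
        rw [sub_add_cancel, hznrm] at this
        exact this
      have h2 : C⁻¹ ≤ nrm p ((J d : H →L[ℂ] H) - b) + nrm p b := by
        rw [ENNReal.inv_le_iff_le_mul (fun _ => hC0) (fun h => absurd h hCtop)]
        exact h1
      have h3 : nrm p ((J d : H →L[ℂ] H) - b) ≤ lowc p := hdle.trans (min_le_right _ _)
      have h4 : lowc p + lowc p = C⁻¹ := ENNReal.add_halves _
      have h5 : lowc p + lowc p ≤ lowc p + nrm p b := by
        rw [h4]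
        exact h2.trans (by gcongr)
      have h6 : lowc p ≠ ⊤ := by
        unfold lowc
        exact (ENNReal.div_lt_top (ENNReal.inv_ne_top.mpr hC0) (by simp)).ne
      exact (ENNReal.add_le_add_iff_left h6).mp h5
    have hdisjA : Disjoint A s := by
      rw [Finset.disjoint_left]
      intro n hnA hns
      have h1 : n ≤ A.sup id := Finset.le_sup (f := id) hnA
      have h2 := hsL n hns
      omega
    have hdisjA' : Disjoint A' (Finset.range m' \ Finset.range (A'.sup id + 1)) := by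
      rw [Finset.disjoint_left]
      intro n hnA hns
      have h1 : n ≤ A'.sup id := Finset.le_sup (f := id) hnA
      rw [Finset.mem_sdiff, Finset.mem_range, Finset.mem_range] at hns
      omega
    refine ⟨D + d, A ∪ s, B + b, A' ∪ (Finset.range m' \ Finset.range (A'.sup id + 1)), ?_, ?_, ?_⟩
    · have : ((D + d : schattenClass H q hq) : H →L[ℂ] H) = (D : H →L[ℂ] H) + (d : H →L[ℂ] H) := rfl
      rw [this]
      exact BlockSum.succ _ _ hD hdisjA hdsupp (compact_of_mem d) hd1.ge hd1.le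
    · exact BlockSum.succ _ _ hB hdisjA' hbsupp hbc hbc' hb1
    · have e1 : ((J (D + d) : schattenClass H p hp) : H →L[ℂ] H) - (B + b) =
          ((J D : H →L[ℂ] H) - B) + ((J d : H →L[ℂ] H) - b) := by
        rw [map_add, Submodule.coe_add]
        abel
      rw [e1]
      calc nrm p (((J D : H →L[ℂ] H) - B) + ((J d : H →L[ℂ] H) - b))
          ≤ C * (nrm p ((J D : H →L[ℂ] H) - B) + nrm p ((J d : H →L[ℂ] H) - b)) :=
            nrm_add_le hp ((compact_of_mem (J D)).sub hB.compact) hzb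
        _ ≤ C * (δ1 + δ1) := by
            gcongr
            exact hdle.trans (min_le_left _ _)
        _ = C * C⁻¹ * (δ / 2 + δ / 2) := by rw [hδ1]; ring
        _ = δ := by rw [ENNReal.mul_inv_cancel hC0 hCtop, one_mul, ENNReal.add_halves]

/-- Polynomial growth contradiction. -/
theorem growth_contra {α β : ℝ} (hβ : 0 ≤ β) (hαβ : β < α) {a C : ℝ≥0∞} (ha : a ≠ 0)
    (hC : C ≠ ⊤) (h : ∀ k : ℕ, a * (k : ℝ≥0∞) ^ α ≤ C * ((k : ℝ≥0∞) ^ β + 1)) : False := by
  -- divide by `k ^ β`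
  have h1 : Tendsto (fun k : ℕ => (k : ℝ≥0∞) ^ (α - β)) atTop (𝓝 ⊤) := by
    have h0 : Tendsto (fun k : ℕ => ENNReal.ofReal ((k : ℝ) ^ (α - β))) atTop (𝓝 ⊤) := by
      apply ENNReal.tendsto_ofReal_atTop.comp
      exact (tendsto_rpow_atTop (by linarith)).comp tendsto_natCast_atTop_atTop
    refine h0.congr ?_
    intro k
    rw [← ENNReal.ofReal_rpow_of_nonneg (by positivity) (by linarith), ENNReal.ofReal_natCast]
  have h2 : Tendsto (fun k : ℕ => a * (k : ℝ≥0∞) ^ (α - β)) atTop (𝓝 ⊤) := by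
    have := ENNReal.Tendsto.const_mul (a := a) h1 (Or.inl (by simp))
    rwa [ENNReal.mul_top ha] at this
  have hCC : C * 2 < ⊤ := ENNReal.mul_lt_top (lt_top_iff_ne_top.mpr hC) (by simp)
  obtain ⟨k, hk1, hk2⟩ := ((eventually_ge_atTop 1).and (h2.eventually (lt_mem_nhds hCC))).exists
  have hk0 : (k : ℝ≥0∞) ≠ 0 := by
    have : k ≠ 0 := by omega
    exact_mod_cast this
  have hk1' : (1 : ℝ≥0∞) ≤ (k : ℝ≥0∞) ^ β := by
    calc (1 : ℝ≥0∞) = 1 ^ β := (ENNReal.one_rpow β).symm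
      _ ≤ (k : ℝ≥0∞) ^ β := by
          gcongr
          exact_mod_cast hk1
  have hkβ0 : (k : ℝ≥0∞) ^ β ≠ 0 := fun h => by rw [h] at hk1'; simp at hk1'
  have hkβt : (k : ℝ≥0∞) ^ β ≠ ⊤ := ENNReal.rpow_ne_top_of_nonneg hβ (by simp)
  have h3 := h k
  have h4 : (k : ℝ≥0∞) ^ α = (k : ℝ≥0∞) ^ (α - β) * (k : ℝ≥0∞) ^ β := by
    rw [← ENNReal.rpow_add _ _ hk0 (by simp)]
    congr 1
    ring
  have h5 : a * (k : ℝ≥0∞) ^ α ≤ (C * 2) * (k : ℝ≥0∞) ^ β := by
    refine h3.trans ?_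
    calc C * ((k : ℝ≥0∞) ^ β + 1) ≤ C * ((k : ℝ≥0∞) ^ β + (k : ℝ≥0∞) ^ β) := by gcongr
      _ = (C * 2) * (k : ℝ≥0∞) ^ β := by ring
  rw [h4, ← mul_assoc] at h5
  have h6 := (ENNReal.mul_le_mul_iff_left hkβ0 hkβt).mp h5
  exact absurd hk2 (not_lt.mpr h6)

include e in
theorem no_isometry (J : schattenClass H q hq →ₗ[ℂ] schattenClass H p hp)
    (hJ : ∀ T, nrm p (J T : H →L[ℂ] H) = nrm q (T : H →L[ℂ] H)) (hq2 : q ≠ 2) (hpq : p ≠ q) :
    False := by
  have hq2' : (q.toReal)⁻¹ ≠ 1 / 2 := by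
    intro h
    have h1 : q.toReal = 2 := by
      rw [one_div] at h
      exact inv_injective h
    have h2 : q ≠ ⊤ := by
      rintro rfl
      simp at h1
    apply hq2
    rw [← ENNReal.ofReal_toReal h2, h1]
    norm_num
  set C := qconst p with hC
  have hCtop : C ≠ ⊤ := qconst_ne_top p
  rcases lt_or_gt_of_ne hpq with hlt | hgt
  · -- p < q
    have hptop : p ≠ ⊤ := ne_top_of_lt hlt
    have hp' : 0 < p.toReal := ENNReal.toReal_pos hp.ne' hptop
    have hαβ : (q.toReal)⁻¹ < (p.toReal)⁻¹ := by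
      by_cases hqtop : q = ⊤
      · subst hqtop
        simp only [ENNReal.toReal_top, inv_zero]
        positivity
      · have : p.toReal < q.toReal := (ENNReal.toReal_lt_toReal hptop hqtop).mpr hlt
        gcongr
    refine growth_contra (a := lowc p) (C := C) (by positivity) hαβ (lowc_ne_zero p) hCtop ?_
    intro k
    obtain ⟨D, A, B, A', hD, hB, hle⟩ := exists_blocks e J hJ hq2' k 1 one_ne_zero
    have hJDc : IsCompactOperator (J D : H →L[ℂ] H) := compact_of_mem (J D)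
    have h1 : nrm p B ≤ C * (nrm p (J D : H →L[ℂ] H) + nrm p (B - (J D : H →L[ℂ] H))) := by
      have hs : IsCompactOperator (B - (J D : H →L[ℂ] H) : H →L[ℂ] H) := hB.compact.sub hJDc
      have := nrm_add_le hp hJDc hs
      rwa [add_sub_cancel] at this
    have h2 : nrm p (B - (J D : H →L[ℂ] H)) ≤ 1 := by
      have e1 : B - (J D : H →L[ℂ] H) = (-1 : ℂ) • ((J D : H →L[ℂ] H) - B) := by
        rw [neg_smul, one_smul]; abel
      rw [e1, nrm_smul hp (hJDc.sub hB.compact)]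
      simpa using hle
    calc lowc p * (k : ℝ≥0∞) ^ (p.toReal)⁻¹ ≤ nrm p B := hB.le_nrm hp hptop
      _ ≤ C * (nrm p (J D : H →L[ℂ] H) + nrm p (B - (J D : H →L[ℂ] H))) := h1
      _ ≤ C * ((k : ℝ≥0∞) ^ (q.toReal)⁻¹ + 1) := by
          gcongr
          rw [hJ]
          exact hD.nrm_le hq
  · -- q < p
    have hqtop : q ≠ ⊤ := ne_top_of_lt hgt
    have hq' : 0 < q.toReal := ENNReal.toReal_pos hq.ne' hqtop
    have hαβ : (p.toReal)⁻¹ < (q.toReal)⁻¹ := by
      by_cases hptop : p = ⊤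
      · subst hptop
        simp only [ENNReal.toReal_top, inv_zero]
        positivity
      · have : q.toReal < p.toReal := (ENNReal.toReal_lt_toReal hqtop hptop).mpr hgt
        gcongr
    refine growth_contra (a := 1) (C := C) (by positivity) hαβ one_ne_zero hCtop ?_
    intro k
    obtain ⟨D, A, B, A', hD, hB, hle⟩ := exists_blocks e J hJ hq2' k 1 one_ne_zero
    have hJDc : IsCompactOperator (J D : H →L[ℂ] H) := compact_of_mem (J D)
    have h1 : nrm p (J D : H →L[ℂ] H) ≤ C * (nrm p B + nrm p ((J D : H →L[ℂ] H) - B)) := by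
      have hs : IsCompactOperator ((J D : H →L[ℂ] H) - B : H →L[ℂ] H) := hJDc.sub hB.compact
      have := nrm_add_le hp hB.compact hs
      rwa [add_sub_cancel] at this
    calc 1 * (k : ℝ≥0∞) ^ (q.toReal)⁻¹ ≤ nrm q (D : H →L[ℂ] H) := hD.le_nrm hq hqtop
      _ = nrm p (J D : H →L[ℂ] H) := (hJ D).symm
      _ ≤ C * (nrm p B + nrm p ((J D : H →L[ℂ] H) - B)) := h1
      _ ≤ C * ((k : ℝ≥0∞) ^ (p.toReal)⁻¹ + 1) := by
          gcongr
          exact hB.nrm_le hp

end Pool.Agent.Schatten
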