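import Pool.Agent.Schatten.Proj

/-!
The Schatten quasi-norms for all exponents `0 < p ≤ ∞`, as extended nonnegative numbers.
-/

open scoped ENNReal InnerProductSpace Topology
open Module.End MeasureTheory Filter

namespace Pool.Agent.Schatten

universe u v

variable {H : Type u} [NormedAddCommGroup H] [InnerProductSpace ℂ H] [CompleteSpace H]

/-- The Schatten `p`-quasi-norm with values in `[0, ∞]`; for `p = ∞` it is the operator norm. -/
noncomputable def nrm (p : ℝ≥0∞) (T : H →L[ℂ] H) : ℝ≥0∞ :=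
  if p = ⊤ then ENNReal.ofReal ‖T‖ else (powSum p.toReal T) ^ (p.toReal)⁻¹

theorem nrm_top (T : H →L[ℂ] H) : nrm ⊤ T = ENNReal.ofReal ‖T‖ := by simp [nrm]

theorem nrm_of_ne_top {p : ℝ≥0∞} (hp : p ≠ ⊤) (T : H →L[ℂ] H) :
    nrm p T = (powSum p.toReal T) ^ (p.toReal)⁻¹ := by simp [nrm, hp]

theorem nrm_smul {p : ℝ≥0∞} (hp : 0 < p) {T : H →L[ℂ] H} (hT : IsCompactOperator T) (c : ℂ) :
    nrm p (c • T) = ENNReal.ofReal ‖c‖ * nrm p T := by
  by_cases htop : p = ⊤
  · subst htop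
    rw [nrm_top, nrm_top, norm_smul, ENNReal.ofReal_mul (norm_nonneg _)]
  · have hp' : 0 < p.toReal := ENNReal.toReal_pos hp.ne' htop
    rw [nrm_of_ne_top htop, nrm_of_ne_top htop, powSum_smul hT hp',
      ENNReal.mul_rpow_of_nonneg _ _ (by positivity), ← ENNReal.ofReal_rpow_of_nonneg (norm_nonneg _)
      hp'.le, ← ENNReal.rpow_mul, mul_inv_cancel₀ hp'.ne', ENNReal.rpow_one]

theorem nrm_zero {p : ℝ≥0∞} (hp : 0 < p) : nrm p (0 : H →L[ℂ] H) = 0 := by
  by_cases htop : p = ⊤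
  · subst htop
    rw [nrm_top]; simp
  · have hp' : 0 < p.toReal := ENNReal.toReal_pos hp.ne' htop
    rw [nrm_of_ne_top htop, powSum_zero hp', ENNReal.zero_rpow_of_pos (by positivity)]

/-- The constant in the quasi-triangle inequality. -/
noncomputable def qconst (p : ℝ≥0∞) : ℝ≥0∞ := 2 ^ (1 + (p.toReal)⁻¹)

theorem qconst_ne_top (p : ℝ≥0∞) : qconst p ≠ ⊤ := by
  unfold qconst
  exact ENNReal.rpow_ne_top_of_nonneg (by positivity) (by simp)

theorem one_le_qconst (p : ℝ≥0∞) : 1 ≤ qconst p := by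
  unfold qconst
  exact ENNReal.one_le_rpow (by norm_num) (by positivity)

theorem nrm_add_le {p : ℝ≥0∞} (hp : 0 < p) {S T : H →L[ℂ] H} (hS : IsCompactOperator S)
    (hT : IsCompactOperator T) : nrm p (S + T) ≤ qconst p * (nrm p S + nrm p T) := by
  by_cases htop : p = ⊤
  · subst htop
    rw [nrm_top, nrm_top, nrm_top]
    calc ENNReal.ofReal ‖S + T‖ ≤ ENNReal.ofReal (‖S‖ + ‖T‖) :=
          ENNReal.ofReal_le_ofReal (norm_add_le _ _)
      _ = ENNReal.ofReal ‖S‖ + ENNReal.ofReal ‖T‖ := ENNReal.ofReal_add (norm_nonneg _) (norm_nonneg _)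
      _ = 1 * (ENNReal.ofReal ‖S‖ + ENNReal.ofReal ‖T‖) := by rw [one_mul]
      _ ≤ _ := by gcongr; exact one_le_qconst _
  · have hp' : 0 < p.toReal := ENNReal.toReal_pos hp.ne' htop
    set q := p.toReal with hq
    rw [nrm_of_ne_top htop, nrm_of_ne_top htop, nrm_of_ne_top htop, ← hq]
    set a := powSum q S with ha
    set b := powSum q T with hb
    have h1 : powSum q (S + T) ≤ ENNReal.ofReal (2 ^ q) * (a + b) := powSum_add_le hS hT hp'
    have h2 : a + b ≤ 2 * (a ^ q⁻¹ + b ^ q⁻¹) ^ q := by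
      have e1 : a ≤ (a ^ q⁻¹ + b ^ q⁻¹) ^ q := by
        calc a = (a ^ q⁻¹) ^ q := by rw [← ENNReal.rpow_mul, inv_mul_cancel₀ hp'.ne', ENNReal.rpow_one]
          _ ≤ _ := by gcongr; exact le_self_add
      have e2 : b ≤ (a ^ q⁻¹ + b ^ q⁻¹) ^ q := by
        calc b = (b ^ q⁻¹) ^ q := by rw [← ENNReal.rpow_mul, inv_mul_cancel₀ hp'.ne', ENNReal.rpow_one]
          _ ≤ _ := by gcongr; exact le_add_self
      rw [two_mul]
      exact add_le_add e1 e2
    calc powSum q (S + T) ^ q⁻¹ ≤ (ENNReal.ofReal (2 ^ q) * (2 * (a ^ q⁻¹ + b ^ q⁻¹) ^ q)) ^ q⁻¹ := by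
          gcongr
          exact h1.trans (by gcongr)
      _ = 2 * (2 ^ q⁻¹ * (a ^ q⁻¹ + b ^ q⁻¹)) := by
          rw [ENNReal.mul_rpow_of_nonneg _ _ (by positivity), ENNReal.mul_rpow_of_nonneg _ _ (by positivity),
            ← ENNReal.rpow_mul, mul_inv_cancel₀ hp'.ne', ENNReal.rpow_one,
            ← ENNReal.ofReal_rpow_of_nonneg (by norm_num) hp'.le, ← ENNReal.rpow_mul,
            mul_inv_cancel₀ hp'.ne', ENNReal.rpow_one]
          norm_num
      _ = qconst p * (a ^ q⁻¹ + b ^ q⁻¹) := by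
          unfold qconst
          rw [← hq, ENNReal.rpow_add _ _ (by norm_num) (by norm_num), ENNReal.rpow_one, mul_assoc]

theorem norm_le_nrm {p : ℝ≥0∞} (hp : 0 < p) {T : H →L[ℂ] H} (hT : IsCompactOperator T) :
    ENNReal.ofReal ‖T‖ ≤ nrm p T := by
  by_cases htop : p = ⊤
  · subst htop
    rw [nrm_top]
  · have hp' : 0 < p.toReal := ENNReal.toReal_pos hp.ne' htop
    rw [nrm_of_ne_top htop]
    have h1 := norm_le_powSum hT hp'
    calc ENNReal.ofReal ‖T‖ = (ENNReal.ofReal (‖T‖ ^ p.toReal)) ^ (p.toReal)⁻¹ := by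
          rw [← ENNReal.ofReal_rpow_of_nonneg (norm_nonneg _) hp'.le, ← ENNReal.rpow_mul,
            mul_inv_cancel₀ hp'.ne', ENNReal.rpow_one]
      _ ≤ _ := by gcongr

theorem nrm_mul_le {p : ℝ≥0∞} (hp : 0 < p) {T A B : H →L[ℂ] H} (hT : IsCompactOperator T)
    (hA : ‖A‖ ≤ 1) (hB : ‖B‖ ≤ 1) : nrm p (A * T * B) ≤ nrm p T := by
  by_cases htop : p = ⊤
  · subst htop
    rw [nrm_top, nrm_top]
    apply ENNReal.ofReal_le_ofReal
    calc ‖A * T * B‖ ≤ ‖A‖ * ‖T‖ * ‖B‖ := by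
          refine (norm_mul_le _ _).trans ?_
          gcongr
          exact norm_mul_le _ _
      _ ≤ 1 * ‖T‖ * 1 := by gcongr
      _ = ‖T‖ := by ring
  · have hp' : 0 < p.toReal := ENNReal.toReal_pos hp.ne' htop
    rw [nrm_of_ne_top htop, nrm_of_ne_top htop]
    gcongr
    exact powSum_mul_le hT hA hB hp'

theorem nrm_le_of_codim {p : ℝ≥0∞} (hp : 0 < p) {T : H →L[ℂ] H} (hT : IsCompactOperator T) {m : ℕ}
    (h : Codim T 0 m) : nrm p T ≤ ((m : ℝ≥0∞) + 1) ^ (p.toReal)⁻¹ * ENNReal.ofReal ‖T‖ := by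
  by_cases htop : p = ⊤
  · subst htop
    rw [nrm_top]; simp
  · have hp' : 0 < p.toReal := ENNReal.toReal_pos hp.ne' htop
    rw [nrm_of_ne_top htop]
    calc powSum p.toReal T ^ (p.toReal)⁻¹
        ≤ ((m + 1 : ℝ≥0∞) * ENNReal.ofReal (‖T‖ ^ p.toReal)) ^ (p.toReal)⁻¹ := by
          gcongr
          refine (powSum_le_of_codim hT hp' h).trans ?_
          gcongr
          exact le_self_add
      _ = _ := by
          rw [ENNReal.mul_rpow_of_nonneg _ _ (by positivity),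
            ← ENNReal.ofReal_rpow_of_nonneg (norm_nonneg _) hp'.le, ← ENNReal.rpow_mul,
            mul_inv_cancel₀ hp'.ne', ENNReal.rpow_one]

theorem tendsto_nrm_compress (e : HilbertBasis ℕ ℂ H) {p : ℝ≥0∞} (hp : 0 < p) {K : H →L[ℂ] H}
    (hK : IsCompactOperator K) (hfin : nrm p K ≠ ⊤) :
    Tendsto (fun m => nrm p (K - proj e (Finset.range m) * K * proj e (Finset.range m)))
      atTop (𝓝 0) := by
  by_cases htop : p = ⊤
  · subst htop
    simp only [nrm_top]
    have := ENNReal.tendsto_ofReal (tendsto_sub_compress e hK)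
    rwa [ENNReal.ofReal_zero] at this
  · have hp' : 0 < p.toReal := ENNReal.toReal_pos hp.ne' htop
    simp only [nrm_of_ne_top htop]
    have hfin' : powSum p.toReal K ≠ ⊤ := by
      intro h
      apply hfin
      rw [nrm_of_ne_top htop, h]
      exact ENNReal.top_rpow_of_pos (by positivity)
    have h1 := tendsto_powSum_compress e hK hp' hfin'
    have h2 := h1.ennrpow_const (p.toReal)⁻¹
    rwa [ENNReal.zero_rpow_of_pos (by positivity)] at h2

end Pool.Agent.Schatten
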