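import Pool.Agent.Schatten.Neg

/-!
The Hilbert-Schmidt class embeds isometrically in every `S_p`, and the existence of Hilbert bases
indexed by `ℕ`.
-/

open scoped ENNReal InnerProductSpace Topology
open Module.End MeasureTheory Filter

namespace Pool.Agent.Schatten

universe u v

variable {H : Type u} [NormedAddCommGroup H] [InnerProductSpace ℂ H] [CompleteSpace H]

theorem exists_basis_nat [TopologicalSpace.SeparableSpace H] (hH : ¬ FiniteDimensional ℂ H) :
    Nonempty (HilbertBasis ℕ ℂ H) := by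
  obtain ⟨w, b, -⟩ := exists_hilbertBasis ℂ H
  have hcount : Countable w := by
    refine Pairwise.countable_of_isOpen_disjoint (s := fun k : w => Metric.ball (b k) (1 / 2)) ?_ ?_ ?_
    · intro k l hkl
      apply Metric.ball_disjoint_ball
      have h1 : ‖b k - b l‖ ^ 2 = 2 := by
        have := norm_sub_sq (𝕜 := ℂ) (b k) (b l)
        rw [b.orthonormal.inner_eq_zero hkl, b.orthonormal.1, b.orthonormal.1] at this
        rw [this]; simp; norm_num
      rw [dist_eq_norm]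
      nlinarith [norm_nonneg (b k - b l)]
    · intro k; exact Metric.isOpen_ball
    · intro k; exact Metric.nonempty_ball.mpr (by norm_num)
  have hinf : Infinite w := by
    by_contra hcon
    rw [not_infinite_iff_finite] at hcon
    have : Fintype w := Fintype.ofFinite w
    exact hH (b.toOrthonormalBasis.toBasis.finiteDimensional_of_finite)
  obtain ⟨f⟩ := nonempty_equiv_of_countable (α := ℕ) (β := w)
  have hon : Orthonormal ℂ (fun n => b (f n)) := b.orthonormal.comp f f.injective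
  refine ⟨HilbertBasis.mkOfOrthogonalEqBot hon ?_⟩
  rw [eq_bot_iff]
  intro x hx
  rw [Submodule.mem_bot]
  apply b.repr.injective
  ext k
  rw [b.repr_apply_apply, map_zero]
  have h1 := (Submodule.mem_orthogonal _ _).mp hx (b k)
    (Submodule.subset_span ⟨f.symm k, by simp⟩)
  rw [h1]; rfl

variable (e : HilbertBasis ℕ ℂ H)

theorem tsum_norm_sq {κ : Type v} (b : HilbertBasis κ ℂ H) (x : H) :
    ∑' k, ENNReal.ofReal (‖⟪b k, x⟫_ℂ‖ ^ 2) = ENNReal.ofReal (‖x‖ ^ 2) := by
  have h := hasSum_norm_sq b x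
  rw [← h.tsum_eq, ENNReal.ofReal_tsum_of_nonneg (fun _ => by positivity) h.summable]

theorem hs_swap {κ : Type v} (b : HilbertBasis κ ℂ H) (T : H →L[ℂ] H) :
    ∑' k, ENNReal.ofReal (‖T (b k)‖ ^ 2) = ∑' i, ENNReal.ofReal (‖(star T) (e i)‖ ^ 2) := by
  have h1 : ∀ k, ENNReal.ofReal (‖T (b k)‖ ^ 2) = ∑' i, ENNReal.ofReal (‖⟪e i, T (b k)⟫_ℂ‖ ^ 2) :=
    fun k => (tsum_norm_sq e _).symm
  have h2 : ∀ i, ENNReal.ofReal (‖(star T) (e i)‖ ^ 2) =
      ∑' k, ENNReal.ofReal (‖⟪b k, (star T) (e i)⟫_ℂ‖ ^ 2) :=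
    fun i => (tsum_norm_sq b _).symm
  simp only [h1, h2]
  rw [ENNReal.tsum_comm]
  congr 1
  ext i
  congr 1
  ext k
  rw [ContinuousLinearMap.star_eq_adjoint, ContinuousLinearMap.adjoint_inner_right,
    ← inner_conj_symm (T (b k)) (e i), RCLike.norm_conj]

theorem powSum_two {T : H →L[ℂ] H} (hT : IsCompactOperator T) :
    powSum 2 T = ∑' i, ENNReal.ofReal (‖T (e i)‖ ^ 2) := by
  obtain ⟨κ, b, hb⟩ := exists_eigenbasis hT
  rw [powSum_eq_tsum hT b hb two_pos]
  have h1 := hs_swap e b T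
  have h2 := hs_swap e e T
  rw [h2, ← h1]
  congr 1
  ext k
  congr 1
  exact Real.rpow_two _

/-- The matrix of `T` as a single sequence. -/
noncomputable def coef (T : H →L[ℂ] H) (n : ℕ) : ℂ := ⟪e n.unpair.2, T (e n.unpair.1)⟫_ℂ

theorem tsum_coef {T : H →L[ℂ] H} (hT : IsCompactOperator T) :
    ∑' n, ENNReal.ofReal (‖coef e T n‖ ^ 2) = powSum 2 T := by
  rw [powSum_two e hT]
  have h1 : ∀ i, ENNReal.ofReal (‖T (e i)‖ ^ 2) = ∑' j, ENNReal.ofReal (‖⟪e j, T (e i)⟫_ℂ‖ ^ 2) :=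
    fun i => (tsum_norm_sq e _).symm
  simp only [h1]
  rw [← ENNReal.tsum_prod' (f := fun p : ℕ × ℕ => ENNReal.ofReal (‖⟪e p.2, T (e p.1)⟫_ℂ‖ ^ 2)),
    ← Nat.pairEquiv.symm.tsum_eq]
  rfl

theorem memℓp_coef {T : H →L[ℂ] H} (hT : IsCompactOperator T) (hfin : powSum 2 T ≠ ⊤) :
    Memℓp (coef e T) 2 := by
  rw [memℓp_gen_iff (by norm_num)]
  have h1 : ∑' n, ENNReal.ofReal (‖coef e T n‖ ^ 2) ≠ ⊤ := by rwa [tsum_coef e hT]
  have h2 := ENNReal.summable_toReal h1
  refine h2.congr ?_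
  intro n
  rw [ENNReal.toReal_ofReal (by positivity)]
  norm_num

theorem hilbertSchmidt_finite {hp : (0 : ℝ≥0∞) < 2} (T : schattenClass H 2 hp) :
    powSum 2 (T : H →L[ℂ] H) ≠ ⊤ := by
  have := T.2.2 (by simp)
  simpa using this.ne

/-- The vector of matrix entries of a Hilbert-Schmidt operator. -/
noncomputable def vec {hp : (0 : ℝ≥0∞) < 2} (T : schattenClass H 2 hp) : H :=
  e.repr.symm ⟨coef e T, memℓp_coef e T.2.1 (hilbertSchmidt_finite T)⟩

theorem vec_add {hp : (0 : ℝ≥0∞) < 2} (S T : schattenClass H 2 hp) :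
    vec e (S + T) = vec e S + vec e T := by
  unfold vec
  rw [← map_add]
  congr 1
  apply lp.ext
  funext n
  show coef e _ n = coef e _ n + coef e _ n
  unfold coef
  rw [Submodule.coe_add, add_apply, inner_add_right]

theorem vec_smul {hp : (0 : ℝ≥0∞) < 2} (c : ℂ) (T : schattenClass H 2 hp) :
    vec e (c • T) = c • vec e T := by
  unfold vec
  rw [← map_smul]
  congr 1
  apply lp.ext
  funext n
  show coef e _ n = c • coef e _ n
  unfold coef
  rw [Submodule.coe_smul, smul_apply, inner_smul_right, smul_eq_mul]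

theorem norm_vec {hp : (0 : ℝ≥0∞) < 2} (T : schattenClass H 2 hp) :
    ENNReal.ofReal (‖vec e T‖ ^ 2) = powSum 2 (T : H →L[ℂ] H) := by
  rw [← tsum_coef e T.2.1, ← tsum_norm_sq e]
  congr 1
  ext n
  congr 3
  rw [← e.repr_apply_apply]
  unfold vec
  rw [LinearIsometryEquiv.apply_symm_apply]

/-- The rank one operator `x ↦ ⟪e 0, x⟫ y`. -/
noncomputable def rk (y : H) : H →L[ℂ] H := (innerSL ℂ (e 0)).smulRight y

theorem rk_basis (y : H) (k : ℕ) : rk e y (e k) = if k = 0 then y else 0 := by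
  unfold rk
  rw [ContinuousLinearMap.smulRight_apply, innerSL_apply_apply, inner_basis]
  by_cases h : k = 0
  · subst h; simp
  · rw [if_neg (Ne.symm h), if_neg h, zero_smul]

theorem isCompact_rk (y : H) : IsCompactOperator (rk e y) := by
  have h1 : IsCompactOperator (innerSL ℂ (e 0) : H →L[ℂ] ℂ) :=
    isCompactOperator_of_locallyCompactSpace_dom (innerSL ℂ (e 0) : H →L[ℂ] ℂ)
  have h2 := h1.clm_comp ((ContinuousLinearMap.id ℂ ℂ).smulRight y)
  have h3 : (rk e y : H → H) = ((ContinuousLinearMap.id ℂ ℂ).smulRight y) ∘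
      (innerSL ℂ (e 0) : H →L[ℂ] ℂ) := by
    ext x
    simp [rk]
  rw [h3]
  exact h2

theorem nrm_rk {p : ℝ≥0∞} (hp : 0 < p) (y : H) : nrm p (rk e y) = ENNReal.ofReal ‖y‖ := by
  by_cases htop : p = ⊤
  · subst htop
    rw [nrm_top]
    congr 1
    unfold rk
    rw [ContinuousLinearMap.norm_smulRight_apply, innerSL_apply_norm, e.orthonormal.1, one_mul]
  · have hp' : 0 < p.toReal := ENNReal.toReal_pos hp.ne' htop
    have horth : ∀ k l, k ≠ l → ⟪rk e y (e k), rk e y (e l)⟫_ℂ = 0 := by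
      intro k l hkl
      rw [rk_basis, rk_basis]
      by_cases h : k = 0
      · subst h
        rw [if_neg (Ne.symm hkl)]; simp
      · rw [if_neg h]; simp
    rw [nrm_of_ne_top htop, powSum_eq_tsum (isCompact_rk e y) e horth hp', tsum_eq_single 0]
    · rw [rk_basis, if_pos rfl, ← ENNReal.ofReal_rpow_of_nonneg (norm_nonneg _) hp'.le,
        ← ENNReal.rpow_mul, mul_inv_cancel₀ hp'.ne', ENNReal.rpow_one]
    · intro k hk
      rw [rk_basis, if_neg hk, norm_zero, Real.zero_rpow hp'.ne', ENNReal.ofReal_zero]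

theorem rk_mem {p : ℝ≥0∞} (hp : 0 < p) (y : H) : rk e y ∈ schattenClass H p hp := by
  show IsSchatten p (rk e y)
  rw [isSchatten_iff hp]
  refine ⟨isCompact_rk e y, ?_⟩
  rw [nrm_rk e hp]
  exact ENNReal.ofReal_ne_top

/-- The isometric embedding of the Hilbert-Schmidt class into `S_p`. -/
noncomputable def hsEmbed {p : ℝ≥0∞} (hp : 0 < p) (h2 : (0 : ℝ≥0∞) < 2) :
    schattenClass H 2 h2 →ₗ[ℂ] schattenClass H p hp where
  toFun T := ⟨rk e (vec e T), rk_mem e hp _⟩
  map_add' := by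
    intro S T
    apply Subtype.ext
    show rk e (vec e (S + T)) = rk e (vec e S) + rk e (vec e T)
    rw [vec_add]
    ext x
    simp [rk, smul_add]
  map_smul' := by
    intro c T
    apply Subtype.ext
    show rk e (vec e (c • T)) = c • rk e (vec e T)
    rw [vec_smul]
    ext x
    simp [rk, smul_smul, mul_comm]

theorem nrm_hsEmbed {p : ℝ≥0∞} (hp : 0 < p) (h2 : (0 : ℝ≥0∞) < 2) (T : schattenClass H 2 h2) :
    nrm p (hsEmbed e hp h2 T : H →L[ℂ] H) = nrm 2 (T : H →L[ℂ] H) := by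
  have h1 : nrm p (hsEmbed e hp h2 T : H →L[ℂ] H) = ENNReal.ofReal ‖vec e T‖ := nrm_rk e hp _
  rw [h1, nrm_of_ne_top (by simp)]
  have h3 : (2 : ℝ≥0∞).toReal = 2 := by simp
  rw [h3, ← norm_vec e T, ← Real.rpow_two, ← ENNReal.ofReal_rpow_of_nonneg (norm_nonneg _) (by norm_num),
    ← ENNReal.rpow_mul]
  norm_num

/-- Full classification of isometric embeddings between different Schatten classes. -/
theorem classification [TopologicalSpace.SeparableSpace H] (hH : ¬ FiniteDimensional ℂ H)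
    (p q : ℝ≥0∞) (hp : 0 < p) (hq : 0 < q) (hpq : p ≠ q) :
    (∃ J : schattenClass H q hq →ₗ[ℂ] schattenClass H p hp,
      ∀ T, schattenNorm p (J T : H →L[ℂ] H) = schattenNorm q (T : H →L[ℂ] H)) ↔ q = 2 := by
  obtain ⟨e⟩ := exists_basis_nat hH
  constructor
  · rintro ⟨J, hJ⟩
    by_contra hq2
    apply no_isometry e J ?_ hq2 hpq
    intro T
    rw [← ofReal_schattenNorm hp (J T).2, ← ofReal_schattenNorm hq T.2, hJ]
  · rintro rfl
    refine ⟨hsEmbed e hp hq, fun T => ?_⟩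
    have h1 := nrm_hsEmbed e hp hq T
    rw [← ofReal_schattenNorm hp (hsEmbed e hp hq T).2, ← ofReal_schattenNorm hq T.2] at h1
    exact (ENNReal.ofReal_eq_ofReal_iff (schattenNorm_nonneg _ _) (schattenNorm_nonneg _ _)).mp h1

end Pool.Agent.Schatten
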