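import Pool.Agent.Schatten.Count

/-!
Quasi-norm properties of `powSum p T = ∑ s_j(T)^p`.
-/

open scoped ENNReal InnerProductSpace
open Module.End MeasureTheory

namespace Pool.Agent.Schatten

universe u v

variable {H : Type u} [NormedAddCommGroup H] [InnerProductSpace ℂ H] [CompleteSpace H]

theorem powSum_smul {T : H →L[ℂ] H} (hT : IsCompactOperator T) {p : ℝ} (hp : 0 < p) (c : ℂ) :
    powSum p (c • T) = ENNReal.ofReal (‖c‖ ^ p) * powSum p T := by
  obtain ⟨κ, b, hb⟩ := exists_eigenbasis hT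
  have hb' : ∀ k l, k ≠ l → ⟪(c • T) (b k), (c • T) (b l)⟫_ℂ = 0 := by
    intro k l hkl
    rw [smul_apply, smul_apply, inner_smul_left, inner_smul_right, hb k l hkl]
    simp
  have hcT : IsCompactOperator (c • T : H →L[ℂ] H) := hT.smul c
  rw [powSum_eq_tsum hT b hb hp, powSum_eq_tsum hcT b hb' hp, ← ENNReal.tsum_mul_left]
  congr 1
  ext k
  rw [smul_apply, norm_smul, Real.mul_rpow (norm_nonneg _) (norm_nonneg _),
    ENNReal.ofReal_mul (by positivity)]

theorem powSum_zero {p : ℝ} (hp : 0 < p) : powSum p (0 : H →L[ℂ] H) = 0 := by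
  have h0 : IsCompactOperator (0 : H →L[ℂ] H) := isCompactOperator_zero
  have := powSum_smul h0 hp 0
  rw [smul_zero] at this
  rw [this]
  simp [Real.zero_rpow hp.ne']

theorem measurable_cnt (T : H →L[ℂ] H) : Measurable (fun r => ((cnt T r : ℕ∞) : ℝ≥0∞)) := by
  apply Antitone.measurable
  intro r s hrs
  show ((cnt T s : ℕ∞) : ℝ≥0∞) ≤ ((cnt T r : ℕ∞) : ℝ≥0∞)
  exact_mod_cast cnt_antitone T hrs

theorem measurable_cnt_mul (T : H →L[ℂ] H) (p : ℝ) :
    Measurable (fun r : ℝ => ((cnt T r : ℕ∞) : ℝ≥0∞) * ENNReal.ofReal (r ^ (p - 1))) := by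
  apply (measurable_cnt T).mul
  fun_prop

theorem powSum_add_le {S T : H →L[ℂ] H} (hS : IsCompactOperator S) (hT : IsCompactOperator T)
    {p : ℝ} (hp : 0 < p) :
    powSum p (S + T) ≤ ENNReal.ofReal (2 ^ p) * (powSum p S + powSum p T) := by
  have h2S : IsCompactOperator ((2 : ℂ) • S : H →L[ℂ] H) := hS.smul (2 : ℂ)
  have h2T : IsCompactOperator ((2 : ℂ) • T : H →L[ℂ] H) := hT.smul (2 : ℂ)
  have hadd : IsCompactOperator (S + T : H →L[ℂ] H) := hS.add hT
  have hn : ‖(2 : ℂ)‖ = 2 := by norm_num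
  have e1 : ENNReal.ofReal (2 ^ p) * (powSum p S + powSum p T) =
      powSum p ((2 : ℂ) • S) + powSum p ((2 : ℂ) • T) := by
    rw [powSum_smul hS hp, powSum_smul hT hp, hn, mul_add]
  rw [e1, powSum_eq_lintegral h2S hp, powSum_eq_lintegral h2T hp, powSum_eq_lintegral hadd hp,
    ← mul_add, ← lintegral_add_left (measurable_cnt_mul _ _)]
  gcongr with r
  rw [← add_mul]
  gcongr
  have h := cnt_add_le S T (r / 2) (r / 2)
  rw [add_halves, cnt_two_smul, cnt_two_smul] at h
  exact_mod_cast h

theorem isCompact_mul {T : H →L[ℂ] H} (hT : IsCompactOperator T) (A B : H →L[ℂ] H) :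
    IsCompactOperator (A * T * B : H →L[ℂ] H) :=
  (hT.clm_comp A).comp_clm B

theorem powSum_mul_le {T A B : H →L[ℂ] H} (hT : IsCompactOperator T) (hA : ‖A‖ ≤ 1) (hB : ‖B‖ ≤ 1)
    {p : ℝ} (hp : 0 < p) : powSum p (A * T * B) ≤ powSum p T := by
  rw [powSum_eq_lintegral hT hp, powSum_eq_lintegral (isCompact_mul hT A B) hp]
  refine mul_le_mul_right ?_ _
  apply setLIntegral_mono (measurable_cnt_mul _ _)
  intro r hr
  gcongr
  exact cnt_mul_le hA hB (le_of_lt hr)

theorem norm_le_powSum {T : H →L[ℂ] H} (hT : IsCompactOperator T) {p : ℝ} (hp : 0 < p) :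
    ENNReal.ofReal (‖T‖ ^ p) ≤ powSum p T := by
  by_cases htop : powSum p T = ⊤
  · rw [htop]; exact le_top
  obtain ⟨κ, b, hb⟩ := exists_eigenbasis hT
  set r : ℝ := (powSum p T).toReal ^ (p⁻¹) with hr
  have hr0 : 0 ≤ r := by positivity
  have hrp : r ^ p = (powSum p T).toReal := by
    rw [hr, ← Real.rpow_mul ENNReal.toReal_nonneg, inv_mul_cancel₀ hp.ne', Real.rpow_one]
  have hk : ∀ k, ‖T (b k)‖ ≤ r := by
    intro k
    have h1 : ENNReal.ofReal (‖T (b k)‖ ^ p) ≤ powSum p T := by
      rw [powSum_eq_tsum hT b hb hp]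
      exact ENNReal.le_tsum k
    have h2 : ‖T (b k)‖ ^ p ≤ r ^ p := by
      rw [hrp]
      exact (ENNReal.ofReal_le_iff_le_toReal htop).mp h1
    exact (Real.rpow_le_rpow_iff (norm_nonneg _) hr0 hp).mp h2
  have h0 : cnt T r = 0 := by
    rw [cnt_eq_encard b hb hr0, Set.encard_eq_zero, Set.eq_empty_iff_forall_notMem]
    intro k hk'
    exact absurd (hk k) (not_le.mpr hk')
  have hle := norm_le_of_cnt_eq_zero hr0 h0
  rw [← ENNReal.ofReal_toReal htop, ← hrp]
  gcongr

theorem powSum_le_of_codim {T : H →L[ℂ] H} (hT : IsCompactOperator T) {p : ℝ} (hp : 0 < p) {m : ℕ}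
    (h : Codim T 0 m) : powSum p T ≤ m * ENNReal.ofReal (‖T‖ ^ p) := by
  classical
  obtain ⟨κ, b, hb⟩ := exists_eigenbasis hT
  have h1 := encard_le_of_codim b hb le_rfl h
  have hfin : {k | 0 < ‖T (b k)‖}.Finite :=
    Set.finite_of_encard_le_coe h1
  obtain ⟨F, hF⟩ := hfin.exists_finset_coe
  rw [← hF, Set.encard_coe_eq_coe_finsetCard] at h1
  rw [powSum_eq_tsum hT b hb hp, tsum_eq_sum (s := F)]
  · calc ∑ k ∈ F, ENNReal.ofReal (‖T (b k)‖ ^ p) ≤ ∑ k ∈ F, ENNReal.ofReal (‖T‖ ^ p) := by
          apply Finset.sum_le_sum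
          intro k _
          have : ‖T (b k)‖ ≤ ‖T‖ := by
            have := T.le_opNorm (b k)
            rwa [b.orthonormal.1 k, mul_one] at this
          gcongr
      _ = F.card * ENNReal.ofReal (‖T‖ ^ p) := by rw [Finset.sum_const, nsmul_eq_mul]
      _ ≤ m * ENNReal.ofReal (‖T‖ ^ p) := by
          gcongr
          exact_mod_cast h1
  · intro k hk
    have : ¬ 0 < ‖T (b k)‖ := by
      intro h
      apply hk
      have : k ∈ (F : Set κ) := by rw [hF]; exact h
      exact this
    have h0 : ‖T (b k)‖ = 0 := le_antisymm (not_lt.mp this) (norm_nonneg _)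
    rw [h0, Real.zero_rpow hp.ne', ENNReal.ofReal_zero]

theorem eigenspace_abs_eq (T : H →L[ℂ] H) {s : ℝ} (hs : 0 < s) :
    eigenspace (CFC.abs T : H →L[ℂ] H).toLinearMap (s : ℂ) =
      eigenspace (star T * T : H →L[ℂ] H).toLinearMap ((s : ℂ) ^ 2) := by
  ext x
  rw [mem_eigenspace_abs_iff T hs, mem_eigenspace_iff]
  rfl

theorem absMult_add {S T : H →L[ℂ] H} (hS : IsCompactOperator S) (hT : IsCompactOperator T)
    (h1 : star S * T = 0) (h2 : S * star T = 0) {s : ℝ} (hs : 0 < s) :
    absMult (S + T) s = absMult S s + absMult T s := by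
  have h3 : star T * S = 0 := by
    have := congrArg star h1
    simpa using this
  have h4 : T * star S = 0 := by
    have := congrArg star h2
    simpa using this
  set A : H →L[ℂ] H := star S * S with hA
  set C : H →L[ℂ] H := star T * T with hC
  have hAC : star (S + T) * (S + T) = A + C := by
    rw [star_add, add_mul, mul_add, mul_add, h1, h3]
    simp [hA, hC]
  have hAC0 : A * C = 0 := by
    rw [hA, hC, mul_assoc, ← mul_assoc S, h2]
    simp
  have hCA0 : C * A = 0 := by
    rw [hA, hC, mul_assoc, ← mul_assoc T, h4]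
    simp
  set μ : ℂ := (s : ℂ) ^ 2 with hμ
  have hμ0 : μ ≠ 0 := pow_ne_zero 2 (by exact_mod_cast hs.ne')
  unfold absMult
  rw [eigenspace_abs_eq _ hs, eigenspace_abs_eq _ hs, eigenspace_abs_eq _ hs, hAC]
  have hfA : FiniteDimensional ℂ (eigenspace (A : H →L[ℂ] H).toLinearMap μ) :=
    ContinuousLinearMap.finite_dimensional_eigenspace (gram_compact hS) _ hμ0
  have hfC : FiniteDimensional ℂ (eigenspace (C : H →L[ℂ] H).toLinearMap μ) :=
    ContinuousLinearMap.finite_dimensional_eigenspace (gram_compact hT) _ hμ0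
  have hsup : eigenspace (A + C : H →L[ℂ] H).toLinearMap μ =
      eigenspace (A : H →L[ℂ] H).toLinearMap μ ⊔ eigenspace (C : H →L[ℂ] H).toLinearMap μ := by
    apply le_antisymm
    · intro x hx
      have hx' : A x + C x = μ • x := by
        rw [mem_eigenspace_iff] at hx
        exact hx
      have e1 : x = μ⁻¹ • A x + μ⁻¹ • C x := by
        rw [← smul_add, hx', smul_smul, inv_mul_cancel₀ hμ0, one_smul]
      rw [e1]
      have hAx : A (A x) = μ • A x := by
        have e2 : A (A x) + A (C x) = μ • A x := by rw [← map_add, hx', map_smul]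
        have e3 : A (C x) = 0 := by
          rw [← mul_apply_eq_comp, hAC0]; rfl
        rwa [e3, add_zero] at e2
      have hCx : C (C x) = μ • C x := by
        have e2 : C (A x) + C (C x) = μ • C x := by rw [← map_add, hx', map_smul]
        have e3 : C (A x) = 0 := by
          rw [← mul_apply_eq_comp, hCA0]; rfl
        rwa [e3, zero_add] at e2
      apply Submodule.add_mem_sup
      · apply Submodule.smul_mem
        rw [mem_eigenspace_iff]
        exact hAx
      · apply Submodule.smul_mem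
        rw [mem_eigenspace_iff]
        exact hCx
    · apply sup_le
      · intro x hx
        have hx' : A x = μ • x := by
          rw [mem_eigenspace_iff] at hx
          exact hx
        rw [mem_eigenspace_iff]
        show A x + C x = μ • x
        have e1 : μ • C x = 0 := by
          rw [← map_smul, ← hx', ← mul_apply_eq_comp, hCA0]; rfl
        rw [(smul_eq_zero.mp e1).resolve_left hμ0, add_zero, hx']
      · intro x hx
        have hx' : C x = μ • x := by
          rw [mem_eigenspace_iff] at hx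
          exact hx
        rw [mem_eigenspace_iff]
        show A x + C x = μ • x
        have e1 : μ • A x = 0 := by
          rw [← map_smul, ← hx', ← mul_apply_eq_comp, hAC0]; rfl
        rw [(smul_eq_zero.mp e1).resolve_left hμ0, zero_add, hx']
  have hinf : eigenspace (A : H →L[ℂ] H).toLinearMap μ ⊓ eigenspace (C : H →L[ℂ] H).toLinearMap μ = ⊥ := by
    rw [eq_bot_iff]
    rintro x ⟨hx1, hx2⟩
    have hx1' : A x = μ • x := by
      have := mem_eigenspace_iff.mp hx1
      exact this
    have hx2' : C x = μ • x := by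
      have := mem_eigenspace_iff.mp hx2
      exact this
    have e1 : μ • (μ • x) = 0 := by
      rw [← hx1', ← map_smul, ← hx2', ← mul_apply_eq_comp, hAC0]; rfl
    rw [Submodule.mem_bot]
    have := (smul_eq_zero.mp e1).resolve_left hμ0
    exact (smul_eq_zero.mp this).resolve_left hμ0
  have := Submodule.finrank_sup_add_finrank_inf_eq (eigenspace (A : H →L[ℂ] H).toLinearMap μ)
    (eigenspace (C : H →L[ℂ] H).toLinearMap μ)
  rw [hinf, finrank_bot, add_zero, ← hsup] at this
  exact this

theorem powSum_add {S T : H →L[ℂ] H} (hS : IsCompactOperator S) (hT : IsCompactOperator T)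
    (h1 : star S * T = 0) (h2 : S * star T = 0) (p : ℝ) :
    powSum p (S + T) = powSum p S + powSum p T := by
  unfold powSum
  rw [← ENNReal.tsum_add]
  congr 1
  ext s
  rw [absMult_add hS hT h1 h2 s.2]
  push_cast
  rw [add_mul]

end Pool.Agent.Schatten
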