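import Pool.Agent.Schatten.PowSum

/-!
Coordinate projections with respect to a Hilbert basis indexed by the natural numbers.
-/

open scoped ENNReal InnerProductSpace Topology
open Module.End MeasureTheory Filter

namespace Pool.Agent.Schatten

universe u v

variable {H : Type u} [NormedAddCommGroup H] [InnerProductSpace ℂ H] [CompleteSpace H]

/-- The coordinate projection onto the span of the `e i`, `i ∈ A`. -/
noncomputable def proj (e : HilbertBasis ℕ ℂ H) (A : Finset ℕ) : H →L[ℂ] H :=
  ∑ i ∈ A, (innerSL ℂ (e i)).smulRight (e i)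

variable (e : HilbertBasis ℕ ℂ H)

theorem inner_basis (i j : ℕ) : ⟪e i, e j⟫_ℂ = if i = j then 1 else 0 := by
  split_ifs with h
  · subst h
    rw [inner_self_eq_norm_sq_to_K, e.orthonormal.1 i]; simp
  · exact e.orthonormal.inner_eq_zero h

theorem proj_apply (A : Finset ℕ) (x : H) : proj e A x = ∑ i ∈ A, ⟪e i, x⟫_ℂ • e i := by
  simp [proj]

theorem inner_proj (A : Finset ℕ) (x : H) (j : ℕ) :
    ⟪e j, proj e A x⟫_ℂ = if j ∈ A then ⟪e j, x⟫_ℂ else 0 := by
  rw [proj_apply, inner_sum]
  simp only [inner_smul_right, inner_basis, mul_ite, mul_one, mul_zero]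
  rw [Finset.sum_ite_eq]

theorem ext_basis {x y : H} (h : ∀ j, ⟪e j, x⟫_ℂ = ⟪e j, y⟫_ℂ) : x = y := by
  apply e.repr.injective
  ext j
  rw [e.repr_apply_apply, e.repr_apply_apply, h j]

theorem proj_basis (A : Finset ℕ) (j : ℕ) : proj e A (e j) = if j ∈ A then e j else 0 := by
  apply ext_basis e
  intro i
  rw [inner_proj]
  split_ifs with h1 h2 h2
  · rfl
  · rw [inner_basis, if_neg (by rintro rfl; exact h2 h1), inner_zero_right]
  · rw [inner_basis, if_neg (by rintro rfl; exact h1 h2)]
  · rw [inner_zero_right]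

theorem proj_mul (A B : Finset ℕ) : proj e A * proj e B = proj e (A ∩ B) := by
  ext x
  apply ext_basis e
  intro j
  rw [mul_apply_eq_comp, inner_proj, inner_proj, inner_proj]
  simp only [Finset.mem_inter]
  split_ifs <;> tauto

theorem star_proj (A : Finset ℕ) : star (proj e A) = proj e A := by
  rw [ContinuousLinearMap.star_eq_adjoint]
  symm
  rw [ContinuousLinearMap.eq_adjoint_iff]
  intro x y
  rw [proj_apply, proj_apply, inner_sum, sum_inner]
  apply Finset.sum_congr rfl
  intro i _
  rw [inner_smul_left, inner_smul_right, inner_conj_symm, mul_comm]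

theorem norm_proj_apply_le (A : Finset ℕ) (x : H) : ‖proj e A x‖ ≤ ‖x‖ := by
  have h1 := hasSum_norm_sq e (proj e A x)
  have h2 := hasSum_norm_sq e x
  have : ‖proj e A x‖ ^ 2 ≤ ‖x‖ ^ 2 := by
    refine hasSum_le ?_ h1 h2
    intro j
    rw [inner_proj]
    split_ifs
    · exact le_rfl
    · simp
  exact le_of_sq_le_sq this (norm_nonneg _)

theorem norm_proj_le (A : Finset ℕ) : ‖proj e A‖ ≤ 1 :=
  (proj e A).opNorm_le_bound zero_le_one (fun x => by rw [one_mul]; exact norm_proj_apply_le e A x)

theorem norm_sub_proj_apply_le (A : Finset ℕ) (x : H) : ‖x - proj e A x‖ ≤ ‖x‖ := by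
  have h1 := hasSum_norm_sq e (x - proj e A x)
  have h2 := hasSum_norm_sq e x
  have : ‖x - proj e A x‖ ^ 2 ≤ ‖x‖ ^ 2 := by
    refine hasSum_le ?_ h1 h2
    intro j
    rw [inner_sub_right, inner_proj]
    split_ifs
    · simp
    · simp
  exact le_of_sq_le_sq this (norm_nonneg _)

theorem tendsto_proj (x : H) : Tendsto (fun m => proj e (Finset.range m) x) atTop (𝓝 x) := by
  have h1 := (e.hasSum_repr x).tendsto_sum_nat
  refine h1.congr ?_
  intro m
  rw [proj_apply]
  apply Finset.sum_congr rfl
  intro i _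
  rw [e.repr_apply_apply]

/-- `(1 - Q_m) K → 0` in norm for compact `K`. -/
theorem tendsto_one_sub_mul {K : H →L[ℂ] H} (hK : IsCompactOperator K) :
    Tendsto (fun m => ‖(1 - proj e (Finset.range m)) * K‖) atTop (𝓝 0) := by
  rw [Metric.tendsto_atTop]
  intro ε hε
  have hcomp : IsCompact (closure (K '' Metric.closedBall (0 : H) 1)) := by
    have := hK.isCompact_closure_image_closedBall (f := (K : H →ₗ[ℂ] H)) 1
    exact this
  have htb : TotallyBounded (K '' Metric.closedBall (0 : H) 1) :=
    hcomp.totallyBounded.subset subset_closure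
  obtain ⟨t, htfin, ht⟩ := Metric.totallyBounded_iff.mp htb (ε / 3) (by positivity)
  have hev : ∀ᶠ m in atTop, ∀ y ∈ t, ‖y - proj e (Finset.range m) y‖ < ε / 3 := by
    rw [Filter.eventually_all_finite htfin]
    intro y _
    have := (tendsto_proj e y).const_sub y
    rw [sub_self] at this
    have := this.norm
    rw [norm_zero] at this
    exact this.eventually (gt_mem_nhds (by positivity))
  obtain ⟨N, hN⟩ := eventually_atTop.mp hev
  refine ⟨N, fun m hm => ?_⟩
  rw [dist_zero_right, norm_norm]
  have hbound : ‖(1 - proj e (Finset.range m)) * K‖ ≤ 2 * ε / 3 := by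
    apply ContinuousLinearMap.opNorm_le_of_unit_norm (by positivity)
    intro x hx
    have hxmem : K x ∈ K '' Metric.closedBall (0 : H) 1 :=
      ⟨x, by rw [mem_closedBall_zero_iff, hx], rfl⟩
    obtain ⟨y, hyt, hy⟩ := Set.mem_iUnion₂.mp (ht hxmem)
    rw [Metric.mem_ball, dist_eq_norm] at hy
    have e1 : ((1 - proj e (Finset.range m)) * K) x =
        ((K x - y) - proj e (Finset.range m) (K x - y)) + (y - proj e (Finset.range m) y) := by
      rw [mul_apply_eq_comp, map_sub]
      show K x - proj e (Finset.range m) (K x) = _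
      abel
    rw [e1]
    calc ‖((K x - y) - proj e (Finset.range m) (K x - y)) + (y - proj e (Finset.range m) y)‖
        ≤ ‖(K x - y) - proj e (Finset.range m) (K x - y)‖ + ‖y - proj e (Finset.range m) y‖ :=
          norm_add_le _ _
      _ ≤ ‖K x - y‖ + ε / 3 := by
          gcongr
          · exact norm_sub_proj_apply_le e _ _
          · exact (hN m hm y hyt).le
      _ ≤ ε / 3 + ε / 3 := by gcongr
      _ = 2 * ε / 3 := by ring
  linarith

theorem norm_one_sub_proj_le (A : Finset ℕ) : ‖1 - proj e A‖ ≤ 1 :=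
  (1 - proj e A).opNorm_le_bound zero_le_one
    (fun x => by rw [one_mul]; exact norm_sub_proj_apply_le e A x)

theorem tendsto_mul_one_sub {K : H →L[ℂ] H} (hK : IsCompactOperator K) :
    Tendsto (fun m => ‖K * (1 - proj e (Finset.range m))‖) atTop (𝓝 0) := by
  have h1 := tendsto_one_sub_mul e (gram_compact hK)
  have h2 : Tendsto (fun m => √(‖(1 - proj e (Finset.range m)) * (star K * K)‖)) atTop (𝓝 0) := by
    have := (Real.continuous_sqrt.tendsto 0).comp h1
    rwa [Real.sqrt_zero] at this
  refine squeeze_zero (fun m => norm_nonneg _) ?_ h2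
  intro m
  apply Real.le_sqrt_of_sq_le
  set P := proj e (Finset.range m) with hP
  have hstar : star (1 - P) = 1 - P := by rw [star_sub, star_one, hP, star_proj]
  calc ‖K * (1 - P)‖ ^ 2 = ‖star (K * (1 - P)) * (K * (1 - P))‖ := by
        rw [CStarRing.norm_star_mul_self, sq]
    _ = ‖((1 - P) * (star K * K)) * (1 - P)‖ := by
        rw [star_mul, hstar]
        simp only [mul_assoc]
    _ ≤ ‖(1 - P) * (star K * K)‖ * ‖1 - P‖ := norm_mul_le _ _
    _ ≤ ‖(1 - P) * (star K * K)‖ * 1 := by
        gcongr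
        exact norm_one_sub_proj_le e _
    _ = ‖(1 - P) * (star K * K)‖ := mul_one _

theorem tendsto_sub_compress {K : H →L[ℂ] H} (hK : IsCompactOperator K) :
    Tendsto (fun m => ‖K - proj e (Finset.range m) * K * proj e (Finset.range m)‖) atTop (𝓝 0) := by
  have h1 := (tendsto_one_sub_mul e hK).add (tendsto_mul_one_sub e hK)
  rw [add_zero] at h1
  refine squeeze_zero (fun m => norm_nonneg _) ?_ h1
  intro m
  set P := proj e (Finset.range m) with hP
  have e1 : K - P * K * P = (1 - P) * K + P * (K * (1 - P)) := by noncomm_ring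
  rw [e1]
  calc ‖(1 - P) * K + P * (K * (1 - P))‖ ≤ ‖(1 - P) * K‖ + ‖P * (K * (1 - P))‖ := norm_add_le _ _
    _ ≤ ‖(1 - P) * K‖ + ‖P‖ * ‖K * (1 - P)‖ := by gcongr; exact norm_mul_le _ _
    _ ≤ ‖(1 - P) * K‖ + 1 * ‖K * (1 - P)‖ := by gcongr; exact norm_proj_le e _
    _ = ‖(1 - P) * K‖ + ‖K * (1 - P)‖ := by rw [one_mul]

/-- Compressions converge in the `p`-th power sum. -/
theorem tendsto_powSum_compress {K : H →L[ℂ] H} (hK : IsCompactOperator K) {p : ℝ} (hp : 0 < p)
    (hfin : powSum p K ≠ ⊤) :
    Tendsto (fun m => powSum p (K - proj e (Finset.range m) * K * proj e (Finset.range m)))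
      atTop (𝓝 0) := by
  set P : ℕ → (H →L[ℂ] H) := fun m => proj e (Finset.range m) with hP
  have hcomp : ∀ m, IsCompactOperator (K - P m * K * P m : H →L[ℂ] H) :=
    fun m => hK.sub (isCompact_mul hK _ _)
  have h2K : IsCompactOperator ((2 : ℂ) • K : H →L[ℂ] H) := hK.smul (2 : ℂ)
  have hfin2 : powSum p ((2 : ℂ) • K) ≠ ⊤ := by
    rw [powSum_smul hK hp]
    exact ENNReal.mul_ne_top ENNReal.ofReal_ne_top hfin
  have key : Tendsto (fun m => ∫⁻ r in Set.Ioi (0 : ℝ),
      ((cnt (K - P m * K * P m) r : ℕ∞) : ℝ≥0∞) * ENNReal.ofReal (r ^ (p - 1))) atTop (𝓝 0) := by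
    have hz : (∫⁻ r in Set.Ioi (0 : ℝ), (0 : ℝ≥0∞)) = 0 := by simp
    rw [← hz]
    refine tendsto_lintegral_of_dominated_convergence
      (fun r => 2 * (((cnt ((2 : ℂ) • K) r : ℕ∞) : ℝ≥0∞) * ENNReal.ofReal (r ^ (p - 1)))) ?_ ?_ ?_ ?_
    · intro m
      exact measurable_cnt_mul _ _
    · intro m
      refine (ae_restrict_iff' measurableSet_Ioi).mpr (Eventually.of_forall ?_)
      intro r hr
      simp only
      rw [← mul_assoc]
      gcongr
      have h1 : cnt (K - P m * K * P m) r ≤ 2 * cnt ((2 : ℂ) • K) r := by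
        have h2 := cnt_add_le K (-(P m * K * P m)) (r / 2) (r / 2)
        rw [add_halves, ← sub_eq_add_neg] at h2
        have h3 : cnt (-(P m * K * P m)) (r / 2) ≤ cnt K (r / 2) := by
          have : -(P m * K * P m) = (-(P m)) * K * P m := by noncomm_ring
          rw [this]
          apply cnt_mul_le
          · rw [norm_neg]; exact norm_proj_le e _
          · exact norm_proj_le e _
          · have : 0 < r := hr
            positivity
        rw [← cnt_two_smul, two_mul]
        exact h2.trans (by gcongr)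
      exact_mod_cast h1
    · rw [lintegral_const_mul _ (measurable_cnt_mul _ _)]
      apply ENNReal.mul_ne_top (by simp)
      intro htop
      rw [powSum_eq_lintegral h2K hp, htop] at hfin2
      exact hfin2 (ENNReal.mul_top (by simpa using hp))
    · refine (ae_restrict_iff' measurableSet_Ioi).mpr (Eventually.of_forall ?_)
      intro r hr
      have hr' : (0:ℝ) < r := hr
      have h1 := (tendsto_sub_compress e hK).eventually (gt_mem_nhds hr')
      refine tendsto_const_nhds.congr' ?_
      filter_upwards [h1] with m hm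
      rw [cnt_eq_zero_of_norm_le hm.le]
      simp
  have h3 := ENNReal.Tendsto.const_mul (a := ENNReal.ofReal p) key (Or.inr ENNReal.ofReal_ne_top)
  rw [mul_zero] at h3
  refine h3.congr ?_
  intro m
  rw [powSum_eq_lintegral (hcomp m) hp]

end Pool.Agent.Schatten
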