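import Pool.Agent.Schatten.Diag

/-!
Selecting almost orthogonal differences from a bounded sequence of operators.
-/

open scoped ENNReal InnerProductSpace Topology
open Module.End MeasureTheory Filter

namespace Pool.Agent.Schatten

universe u v

variable {H : Type u} [NormedAddCommGroup H] [InnerProductSpace ℂ H] [CompleteSpace H]
variable (e : HilbertBasis ℕ ℂ H)

/-- Two far-out members of a bounded sequence have almost the same first matrix entries. -/
theorem exists_small_entries {X : ℕ → (H →L[ℂ] H)} {C : ℝ} (hC : ∀ n, ‖X n‖ ≤ C) (M L : ℕ)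
    {ε : ℝ} (hε : 0 < ε) :
    ∃ n m, L ≤ n ∧ n < m ∧ ∀ i < M, ∀ j < M, ‖⟪e j, (X n - X m) (e i)⟫_ℂ‖ ≤ ε := by
  have hC0 : 0 ≤ C := (norm_nonneg _).trans (hC 0)
  set f : ℕ → (Fin M × Fin M → ℂ) := fun n ij => ⟪e ij.2, X (L + n) (e ij.1)⟫_ℂ with hf
  have hfmem : ∀ n, f n ∈ Metric.closedBall (0 : Fin M × Fin M → ℂ) C := by
    intro n
    rw [mem_closedBall_zero_iff, pi_norm_le_iff_of_nonneg hC0]
    intro ij
    calc ‖⟪e ij.2, X (L + n) (e ij.1)⟫_ℂ‖ ≤ ‖e ij.2‖ * ‖X (L + n) (e ij.1)‖ := norm_inner_le_norm _ _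
      _ ≤ 1 * (‖X (L + n)‖ * ‖e ij.1‖) := by
          rw [e.orthonormal.1]
          gcongr
          exact (X (L + n)).le_opNorm _
      _ ≤ C := by
          rw [e.orthonormal.1, one_mul, mul_one]
          exact hC _
  obtain ⟨a, _, φ, hφ, hlim⟩ := (isCompact_closedBall (0 : Fin M × Fin M → ℂ) C).tendsto_subseq hfmem
  have hev := hlim.eventually (Metric.ball_mem_nhds a (half_pos hε))
  obtain ⟨N, hN⟩ := eventually_atTop.mp hev
  refine ⟨L + φ N, L + φ (N + 1), Nat.le_add_right _ _, ?_, ?_⟩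
  · exact Nat.add_lt_add_left (hφ (Nat.lt_succ_self N)) L
  · intro i hi j hj
    have h1 : dist (f (φ N)) (f (φ (N + 1))) ≤ ε := by
      have d1 := hN N le_rfl
      have d2 := hN (N + 1) (Nat.le_succ N)
      have := dist_triangle_right (f (φ N)) (f (φ (N + 1))) a
      simp only [Function.comp] at d1 d2
      linarith
    have h2 := (dist_le_pi_dist (f (φ N)) (f (φ (N + 1))) (⟨i, hi⟩, ⟨j, hj⟩)).trans h1
    rw [dist_eq_norm] at h2
    simp only [hf] at h2
    rw [sub_apply, inner_sub_right]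
    exact h2

/-- `∑_{i<K} ‖G e_i‖² + ‖G* e_i‖²`. -/
noncomputable def sizeK (K : ℕ) (G : H →L[ℂ] H) : ℝ :=
  ∑ i ∈ Finset.range K, (‖G (e i)‖ ^ 2 + ‖(star G) (e i)‖ ^ 2)

theorem sizeK_nonneg (K : ℕ) (G : H →L[ℂ] H) : 0 ≤ sizeK e K G :=
  Finset.sum_nonneg (fun _ _ => by positivity)

theorem sizeK_le (K : ℕ) (G : H →L[ℂ] H) : sizeK e K G ≤ 2 * K * ‖G‖ ^ 2 := by
  unfold sizeK
  calc ∑ i ∈ Finset.range K, (‖G (e i)‖ ^ 2 + ‖(star G) (e i)‖ ^ 2)
      ≤ ∑ i ∈ Finset.range K, (‖G‖ ^ 2 + ‖G‖ ^ 2) := by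
        apply Finset.sum_le_sum
        intro i _
        have h1 := G.le_opNorm (e i)
        have h2 := (star G).le_opNorm (e i)
        rw [e.orthonormal.1, mul_one] at h1 h2
        rw [norm_star] at h2
        gcongr
    _ = 2 * K * ‖G‖ ^ 2 := by
        rw [Finset.sum_const, Finset.card_range, nsmul_eq_mul]; ring

theorem le_sizeK {K : ℕ} (G : H →L[ℂ] H) {i : ℕ} (hi : i < K) :
    ‖G (e i)‖ ^ 2 ≤ sizeK e K G ∧ ‖(star G) (e i)‖ ^ 2 ≤ sizeK e K G := by
  have h : ‖G (e i)‖ ^ 2 + ‖(star G) (e i)‖ ^ 2 ≤ sizeK e K G :=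
    Finset.single_le_sum (f := fun i => ‖G (e i)‖ ^ 2 + ‖(star G) (e i)‖ ^ 2)
      (fun _ _ => by positivity) (Finset.mem_range.mpr hi)
  constructor <;> nlinarith [sq_nonneg ‖G (e i)‖, sq_nonneg ‖(star G) (e i)‖]

theorem inner_le_of_entries {x y : H} {M : ℕ} {A ε δ : ℝ} (hA : ‖x‖ ≤ A)
    (hx : ‖x - proj e (Finset.range M) x‖ ≤ δ) (hy : ∀ j < M, ‖⟪e j, y⟫_ℂ‖ ≤ ε) :
    ‖⟪x, y⟫_ℂ‖ ≤ M * A * ε + δ * ‖y‖ := by
  have hA0 : 0 ≤ A := (norm_nonneg _).trans hA
  have e1 : ⟪x, y⟫_ℂ = ⟪proj e (Finset.range M) x, y⟫_ℂ + ⟪x - proj e (Finset.range M) x, y⟫_ℂ := by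
    rw [← inner_add_left]; congr 1; abel
  rw [e1]
  refine (norm_add_le _ _).trans ?_
  apply add_le_add
  · rw [proj_apply, sum_inner]
    refine (norm_sum_le _ _).trans ?_
    calc ∑ i ∈ Finset.range M, ‖⟪⟪e i, x⟫_ℂ • e i, y⟫_ℂ‖ ≤ ∑ i ∈ Finset.range M, A * ε := by
          apply Finset.sum_le_sum
          intro i hi
          rw [inner_smul_left, norm_mul, RCLike.norm_conj]
          have h1 : ‖⟪e i, x⟫_ℂ‖ ≤ A := by
            refine (norm_inner_le_norm _ _).trans ?_
            rw [e.orthonormal.1, one_mul]; exact hA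
          have h2 := hy i (Finset.mem_range.mp hi)
          gcongr
      _ = M * A * ε := by rw [Finset.sum_const, Finset.card_range, nsmul_eq_mul]; ring
  · refine (norm_inner_le_norm _ _).trans ?_
    gcongr

/-- A far-out difference that is almost orthogonal to a given operator on the first vectors. -/
theorem exists_almost_orth {X : ℕ → (H →L[ℂ] H)} {C : ℝ} (hC : ∀ n, ‖X n‖ ≤ C) (G : H →L[ℂ] H)
    (K L : ℕ) {δ : ℝ} (hδ : 0 < δ) :
    ∃ n m, L ≤ n ∧ n < m ∧ ∀ i < K, ‖⟪G (e i), (X n - X m) (e i)⟫_ℂ‖ ≤ δ ∧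
      ‖⟪(star G) (e i), (star (X n - X m)) (e i)⟫_ℂ‖ ≤ δ := by
  have hC0 : 0 ≤ C := (norm_nonneg _).trans (hC 0)
  set δ' : ℝ := δ / (2 * (2 * C + 1)) with hδ'
  have hδ'0 : 0 < δ' := by positivity
  have hev : ∀ᶠ M in atTop, ∀ i ∈ Finset.range K,
      ‖G (e i) - proj e (Finset.range M) (G (e i))‖ ≤ δ' ∧
      ‖(star G) (e i) - proj e (Finset.range M) ((star G) (e i))‖ ≤ δ' := by
    rw [Finset.eventually_all]
    intro i _
    have key : ∀ x : H, ∀ᶠ M in atTop, ‖x - proj e (Finset.range M) x‖ ≤ δ' := by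
      intro x
      have := (tendsto_proj e x).const_sub x
      rw [sub_self] at this
      have := this.norm
      rw [norm_zero] at this
      filter_upwards [this.eventually (gt_mem_nhds hδ'0)] with m hm using hm.le
    exact (key _).and (key _)
  obtain ⟨M, hMK, hM⟩ := ((eventually_ge_atTop K).and hev).exists
  set ε' : ℝ := δ / (2 * (M * ‖G‖ + 1)) with hε'
  have hε'0 : 0 < ε' := by positivity
  obtain ⟨n, m, hn, hnm, hent⟩ := exists_small_entries e hC M L hε'0
  have hY : ‖X n - X m‖ ≤ 2 * C := by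
    calc ‖X n - X m‖ ≤ ‖X n‖ + ‖X m‖ := norm_sub_le _ _
      _ ≤ C + C := add_le_add (hC n) (hC m)
      _ = 2 * C := by ring
  have hfinal : M * ‖G‖ * ε' + δ' * (2 * C) ≤ δ := by
    have h1 : M * ‖G‖ * ε' ≤ δ / 2 := by
      rw [hε']
      rw [mul_div_assoc', div_le_div_iff₀ (by positivity) (by norm_num)]
      nlinarith [norm_nonneg G, hδ]
    have h2 : δ' * (2 * C) ≤ δ / 2 := by
      rw [hδ', div_mul_eq_mul_div, div_le_div_iff₀ (by positivity) (by norm_num)]
      nlinarith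
    linarith
  refine ⟨n, m, hn, hnm, fun i hi => ?_⟩
  have hiM : i < M := lt_of_lt_of_le hi hMK
  have hMi := hM i (Finset.mem_range.mpr hi)
  constructor
  · have h1 : ‖G (e i)‖ ≤ ‖G‖ := by
      have := G.le_opNorm (e i)
      rwa [e.orthonormal.1, mul_one] at this
    have h2 := inner_le_of_entries e (y := (X n - X m) (e i)) h1 hMi.1
      (fun j hj => hent i hiM j hj)
    refine h2.trans (le_trans ?_ hfinal)
    gcongr
    have := (X n - X m).le_opNorm (e i)
    rw [e.orthonormal.1, mul_one] at this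
    exact this.trans hY
  · have h1 : ‖(star G) (e i)‖ ≤ ‖G‖ := by
      have := (star G).le_opNorm (e i)
      rwa [e.orthonormal.1, mul_one, norm_star] at this
    have h2 := inner_le_of_entries e (y := (star (X n - X m)) (e i)) h1 hMi.2
      (fun j hj => by
        have : ⟪e j, (star (X n - X m)) (e i)⟫_ℂ = (starRingEnd ℂ) ⟪e i, (X n - X m) (e j)⟫_ℂ := by
          rw [ContinuousLinearMap.star_eq_adjoint, ContinuousLinearMap.adjoint_inner_right,
            inner_conj_symm]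
        rw [this, RCLike.norm_conj]
        exact hent j hj i hiM)
    refine h2.trans (le_trans ?_ hfinal)
    gcongr
    have := (star (X n - X m)).le_opNorm (e i)
    rw [e.orthonormal.1, mul_one, norm_star] at this
    exact this.trans hY

theorem sizeK_add {K : ℕ} {G Y : H →L[ℂ] H} {δ : ℝ}
    (h : ∀ i < K, ‖⟪G (e i), Y (e i)⟫_ℂ‖ ≤ δ ∧ ‖⟪(star G) (e i), (star Y) (e i)⟫_ℂ‖ ≤ δ) :
    |sizeK e K (G + Y) - (sizeK e K G + sizeK e K Y)| ≤ 4 * K * δ := by
  have hpt : ∀ x y : H, ‖x + y‖ ^ 2 - (‖x‖ ^ 2 + ‖y‖ ^ 2) = 2 * RCLike.re ⟪x, y⟫_ℂ := by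
    intro x y
    have := norm_add_sq (𝕜 := ℂ) x y
    linarith
  have e1 : sizeK e K (G + Y) - (sizeK e K G + sizeK e K Y) =
      ∑ i ∈ Finset.range K, (2 * RCLike.re ⟪G (e i), Y (e i)⟫_ℂ +
        2 * RCLike.re ⟪(star G) (e i), (star Y) (e i)⟫_ℂ) := by
    unfold sizeK
    rw [← Finset.sum_add_distrib, ← Finset.sum_sub_distrib]
    apply Finset.sum_congr rfl
    intro i _
    rw [← hpt, ← hpt, star_add, add_apply, add_apply]
    ring
  rw [e1]
  refine (Finset.abs_sum_le_sum_abs _ _).trans ?_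
  calc ∑ i ∈ Finset.range K, |2 * RCLike.re ⟪G (e i), Y (e i)⟫_ℂ +
        2 * RCLike.re ⟪(star G) (e i), (star Y) (e i)⟫_ℂ| ≤ ∑ i ∈ Finset.range K, (4 * δ) := by
        apply Finset.sum_le_sum
        intro i hi
        obtain ⟨h1, h2⟩ := h i (Finset.mem_range.mp hi)
        have h3 := (RCLike.abs_re_le_norm ⟪G (e i), Y (e i)⟫_ℂ).trans h1
        have h4 := (RCLike.abs_re_le_norm ⟪(star G) (e i), (star Y) (e i)⟫_ℂ).trans h2
        rw [abs_le] at h3 h4 ⊢
        constructor <;> linarith [h3.1, h3.2, h4.1, h4.2]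
    _ = 4 * K * δ := by rw [Finset.sum_const, Finset.card_range, nsmul_eq_mul]; ring

/-- Selection of `r` differences with almost additive `sizeK`. -/
theorem exists_selection {X : ℕ → (H →L[ℂ] H)} {C : ℝ} (hC : ∀ n, ‖X n‖ ≤ C) (K L : ℕ)
    {lo hi : ℝ} (hlohi : ∀ n m, L ≤ n → n < m → lo ≤ sizeK e K (X n - X m) ∧
      sizeK e K (X n - X m) ≤ hi) (r : ℕ) :
    ∀ δ > 0, ∃ (s : Finset ℕ) (a : ℕ → ℂ), (∀ n ∈ s, ‖a n‖ = 1) ∧ (∀ n ∈ s, L ≤ n) ∧
      s.card = 2 * r ∧ r * lo - δ ≤ sizeK e K (∑ n ∈ s, a n • X n) ∧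
      sizeK e K (∑ n ∈ s, a n • X n) ≤ r * hi + δ := by
  classical
  induction r with
  | zero =>
    intro δ hδ
    refine ⟨∅, 0, by simp, by simp, by simp, ?_, ?_⟩
    · have := sizeK_nonneg e K (∑ n ∈ (∅ : Finset ℕ), (0 : ℕ → ℂ) n • X n)
      push_cast
      linarith
    · have : sizeK e K (∑ n ∈ (∅ : Finset ℕ), (0 : ℕ → ℂ) n • X n) = 0 := by
        simp [sizeK]
      rw [this]
      push_cast
      linarith
  | succ r ih =>
    intro δ hδ
    obtain ⟨s, a, ha, hsL, hcard, hlo, hhi⟩ := ih (δ / 2) (by positivity)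
    set G := ∑ n ∈ s, a n • X n with hG
    set L' := L + (s.sup id + 1) with hL'
    set δ' : ℝ := δ / (2 * (4 * K + 1)) with hδ'
    have hδ'0 : 0 < δ' := by positivity
    obtain ⟨n, m, hn, hnm, horth⟩ := exists_almost_orth e hC G K L' hδ'0
    have hns : ∀ k ∈ s, k < n := by
      intro k hk
      have : k ≤ s.sup id := Finset.le_sup (f := id) hk
      omega
    have hn' : n ∉ s := fun h => lt_irrefl _ (hns n h)
    have hm' : m ∉ s := fun h => absurd (hns m h) (by omega)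
    set a' : ℕ → ℂ := fun k => if k = n then 1 else if k = m then -1 else a k with ha'
    have hsum : ∑ k ∈ insert n (insert m s), a' k • X k = G + (X n - X m) := by
      rw [Finset.sum_insert (by simp [hn', hnm.ne]), Finset.sum_insert hm']
      have e1 : a' n = 1 := by simp [ha']
      have e2 : a' m = -1 := by simp [ha', hnm.ne']
      have e3 : ∑ k ∈ s, a' k • X k = G := by
        rw [hG]
        apply Finset.sum_congr rfl
        intro k hk
        have h1 : k ≠ n := fun h => hn' (h ▸ hk)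
        have h2 : k ≠ m := fun h => hm' (h ▸ hk)
        simp [ha', h1, h2]
      rw [e1, e2, e3, one_smul, neg_smul, one_smul]
      abel
    have hadd := sizeK_add e horth
    have hbd := hlohi n m (by omega) hnm
    have h4 : 4 * K * δ' ≤ δ / 2 := by
      rw [hδ', mul_div_assoc', div_le_div_iff₀ (by positivity) (by norm_num)]
      nlinarith
    rw [abs_le] at hadd
    refine ⟨insert n (insert m s), a', ?_, ?_, ?_, ?_, ?_⟩
    · intro k hk
      rw [Finset.mem_insert, Finset.mem_insert] at hk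
      simp only [ha']
      split_ifs with h1 h2
      · simp
      · simp
      · rcases hk with h | h | h
        · exact absurd h h1
        · exact absurd h h2
        · exact ha k h
    · intro k hk
      rw [Finset.mem_insert, Finset.mem_insert] at hk
      rcases hk with h | h | h
      · omega
      · omega
      · exact hsL k h
    · rw [Finset.card_insert_of_notMem (by simp [hn', hnm.ne]), Finset.card_insert_of_notMem hm', hcard]
      ring
    · rw [hsum]
      push_cast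
      linarith [hadd.1, hadd.2]
    · rw [hsum]
      push_cast
      linarith [hadd.1, hadd.2]

end Pool.Agent.Schatten
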